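import Pool.Agent.RB.Defs

set_option autoImplicit false

namespace Pool.Agent.RB

open Equiv

variable {ν : Type} [Fintype ν] [DecidableEq ν]

/-- [eps, size 1] a bijective self-map: the matrix is a permutation matrix. -/
theorem eps_of_bij {g : ν → ν} (hg : Function.Bijective g) :
    eps g = (Perm.sign (Equiv.ofBijective g hg) : ℤ) := by
  have h1 : (Matrix.of fun j b => if g j = b then (1 : ℤ) else 0) =
      (Equiv.Perm.permMatrix ℤ (Equiv.ofBijective g hg : Perm ν)) := by
    ext i j
    simp [Equiv.Perm.permMatrix, PEquiv.toMatrix_apply, Equiv.toPEquiv_apply, eq_comm]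
  rw [eps, h1, Matrix.det_permutation, Int.cast_id]

/-- [eps, size 1] not bijective, hence not injective (finite): two equal rows. -/
theorem eps_of_not {g : ν → ν} (hg : ¬ Function.Bijective g) : eps g = 0 := by
  have hinj : ¬ Function.Injective g := fun h => hg (Finite.injective_iff_bijective.mp h)
  rw [Function.Injective] at hinj
  push Not at hinj
  obtain ⟨a, b, hab, hne⟩ := hinj
  unfold eps
  refine Matrix.det_zero_of_row_eq hne ?_
  ext c
  simp [hab]

private theorem alt_det1 {R : Type} [CommRing R] (B : Matrix ν ν R) (g : ν → ν) :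
    ∑ τ : Perm ν, ((Perm.sign τ : ℤ) : R) * ∏ j, B (g j) (τ j) = B.det * ((eps g : ℤ) : R) := by
  have h1 : ((eps g : ℤ) : R) = Matrix.det (Matrix.of fun j b => if g j = b then (1 : R) else 0) := by
    unfold eps
    have h2 := RingHom.map_det (Int.castRingHom R) (Matrix.of fun j b => if g j = b then (1 : ℤ) else 0)
    rw [eq_intCast] at h2
    rw [h2]
    congr 1
    ext i j
    by_cases h : g i = j
    · simp [h]
    · simp [h]
  have h3 : (Matrix.of fun j b => if g j = b then (1 : R) else 0) * B = B.submatrix g id := by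
    ext i j
    simp [Matrix.mul_apply]
  rw [h1, mul_comm, ← Matrix.det_mul, h3, ← Matrix.det_transpose, Matrix.det_apply']
  refine Finset.sum_congr rfl fun τ _ => ?_
  simp [Matrix.transpose_apply]

/-- [alt, size 2] ALTERNATING SUM.  Proof: `det (A i (h j l) (σ i j))_{i,l} = ∑ c, sign c * ∏ i, A i (h j (c i)) (σ i j)`
(`Matrix.det_apply'`, transposed).  Product over `j` = sum over `c : ν → Perm (Fin k)` (`Finset.prod_univ_sum` /
`Fintype.piFinset_univ`).  Exchange the sums and the products over `i` and `j`; the sum over `σ` factorises over `i`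
(`Finset.prod_univ_sum` again): `∑ τ : Perm ν, sign τ * ∏ j, A i (g j) (τ j) = det ((A i).submatrix g id)`, `g j = h j (c j i)`, and
`(A i).submatrix g id = P * A i` with `P = of fun j b => if g j = b then 1 else 0`, whose determinant is `(eps g : R)`
(`Int.castRingHom`, `RingHom.map_det`). -/
theorem alt_sum {R : Type} [CommRing R] (k : ℕ) (A : Fin k → Matrix ν ν R) (h : ν → Fin k → ν) :
    ∑ σ : Fin k → Perm ν, (∏ i, ((Perm.sign (σ i) : ℤ) : R)) *
      ∏ j, Matrix.det (Matrix.of fun (i l : Fin k) => A i (h j l) (σ i j)) =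
    (∏ i, (A i).det) * ((Wh k h : ℤ) : R) := by
  have h1 : ∀ (σ : Fin k → Perm ν) (j : ν),
      Matrix.det (Matrix.of fun (i l : Fin k) => A i (h j l) (σ i j)) =
      ∑ c : Perm (Fin k), ((Perm.sign c : ℤ) : R) * ∏ i, A i (h j (c i)) (σ i j) := by
    intro σ j
    rw [← Matrix.det_transpose, Matrix.det_apply']
    rfl
  have h2 : ∀ σ : Fin k → Perm ν, ∏ j, Matrix.det (Matrix.of fun (i l : Fin k) => A i (h j l) (σ i j)) =
      ∑ c : ν → Perm (Fin k), (∏ j, ((Perm.sign (c j) : ℤ) : R)) * ∏ i, ∏ j, A i (h j (c j i)) (σ i j) := by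
    intro σ
    rw [Finset.prod_congr rfl fun j _ => h1 σ j, Fintype.prod_sum]
    refine Finset.sum_congr rfl fun c _ => ?_
    rw [Finset.prod_mul_distrib, Finset.prod_comm]
  rw [Finset.sum_congr rfl fun σ _ => by rw [h2 σ, Finset.mul_sum], Finset.sum_comm]
  unfold Wh
  push_cast
  rw [Finset.mul_sum]
  refine Finset.sum_congr rfl fun c _ => ?_
  have h3 : ∀ σ : Fin k → Perm ν, (∏ i, ((Perm.sign (σ i) : ℤ) : R)) *
      ((∏ j, ((Perm.sign (c j) : ℤ) : R)) * ∏ i, ∏ j, A i (h j (c j i)) (σ i j)) =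
      (∏ j, ((Perm.sign (c j) : ℤ) : R)) *
        ∏ i, (((Perm.sign (σ i) : ℤ) : R) * ∏ j, A i (h j (c j i)) (σ i j)) := by
    intro σ
    rw [Finset.prod_mul_distrib]
    ring
  rw [Finset.sum_congr rfl fun σ _ => h3 σ, ← Finset.mul_sum,
    ← Fintype.prod_sum (fun (i : Fin k) (τ : Perm ν) => ((Perm.sign τ : ℤ) : R) * ∏ j, A i (h j (c j i)) (τ j)),
    Finset.prod_congr rfl fun i _ => alt_det1 (A i) (fun j => h j (c j i)), Finset.prod_mul_distrib]
  ring

end Pool.Agent.RB
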