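import Pool.Agent.RB.Defs

set_option autoImplicit false

namespace Pool.Agent.RB

open Equiv

variable {ν μ : Type} [Fintype ν] [DecidableEq ν] [Fintype μ] [DecidableEq μ]

/-- [beq, size 1] the count is invariant under a bijection of the set `ν` (`Fintype.sum_equiv` with
`Equiv.arrowCongr e (Equiv.refl _)`; bijectivity of `s ↦ e (f (e.symm s) (δ s i))`). -/
theorem Cf_equiv (e : ν ≃ μ) {k : ℕ} (f : ν → Fin k → ν) :
    Cf k (fun s l => e (f (e.symm s) l)) = Cf k f := by
  unfold Cf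
  refine Fintype.sum_equiv (Equiv.arrowCongr e.symm (Equiv.refl _)) _ _ ?_
  intro δ
  have h1 : ∏ s : μ, ((Perm.sign (δ s) : ℤˣ) : ℤ)
      = ∏ s : ν, ((Perm.sign ((Equiv.arrowCongr e.symm (Equiv.refl (Perm (Fin k)))) δ s) : ℤˣ) : ℤ) := by
    rw [← Equiv.prod_comp e (fun s => ((Perm.sign (δ s) : ℤˣ) : ℤ))]
    rfl
  rw [h1]
  congr 1
  refine Finset.prod_congr rfl fun i _ => ?_
  have h2 : Function.Bijective (fun s : μ => e (f (e.symm s) (δ s i))) ↔
      Function.Bijective (fun s : ν => f s ((Equiv.arrowCongr e.symm (Equiv.refl (Perm (Fin k)))) δ s i)) := by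
    have h3 : (fun s : μ => e (f (e.symm s) (δ s i)))
        = e ∘ (fun s : ν => f s (δ (e s) i)) ∘ e.symm := by
      funext s
      simp
    rw [h3, Equiv.comp_bijective, Equiv.bijective_comp]
    rfl
  exact if_congr h2 rfl rfl

/-- the disjoint union of two families -/
def fsum {k : ℕ} (f : ν → Fin k → ν) (g : μ → Fin k → μ) : ν ⊕ μ → Fin k → ν ⊕ μ :=
  Sum.elim (fun s l => Sum.inl (f s l)) (fun s l => Sum.inr (g s l))

/-- [bsu, size 2] BLOCKS.  Proof: `(ν ⊕ μ → Perm (Fin k)) ≃ (ν → _) × (μ → _)` (`Equiv.sumArrowEquivProdArrow`), the product of the signs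
splits (`Fintype.prod_sum_type`), and `s ↦ fsum f g s (δ s i) = Sum.map _ _` is bijective iff both parts are. -/
theorem Cf_sum {k : ℕ} (f : ν → Fin k → ν) (g : μ → Fin k → μ) : Cf k (fsum f g) = Cf k f * Cf k g := by
  unfold Cf
  rw [Finset.sum_mul_sum, ← Finset.sum_product', Finset.univ_product_univ]
  refine Fintype.sum_equiv (Equiv.sumArrowEquivProdArrow ν μ (Perm (Fin k))) _ _ ?_
  intro δ
  rw [Fintype.prod_sum_type, mul_mul_mul_comm, ← Finset.prod_mul_distrib]
  congr 1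
  refine Finset.prod_congr rfl fun i _ => ?_
  have h1 : (fun s => fsum f g s (δ s i))
      = Sum.map (fun s => f s (δ (Sum.inl s) i)) (fun s => g s (δ (Sum.inr s) i)) := by
    funext s
    cases s <;> rfl
  have h2 : Function.Bijective (fun s => fsum f g s (δ s i)) ↔
      Function.Bijective (fun s => f s (δ (Sum.inl s) i)) ∧
        Function.Bijective (fun s => g s (δ (Sum.inr s) i)) := by
    rw [h1, Sum.map_bijective]
  rw [if_congr h2 rfl rfl]
  change _ = (if Function.Bijective (fun s => f s (δ (Sum.inl s) i)) then (1 : ℤ) else 0) *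
    (if Function.Bijective (fun s => g s (δ (Sum.inr s) i)) then (1 : ℤ) else 0)
  by_cases ha : Function.Bijective (fun s => f s (δ (Sum.inl s) i))
  · by_cases hb : Function.Bijective (fun s => g s (δ (Sum.inr s) i))
    · rw [if_pos ⟨ha, hb⟩, if_pos ha, if_pos hb, mul_one]
    · rw [if_neg (fun h => hb h.2), if_neg hb, mul_zero]
  · rw [if_neg (fun h => ha h.1), if_neg ha, zero_mul]

theorem OkP_of {p k n : ℕ} (hn : Fintype.card ν = n) (f : ν → Fin k → ν) (hf : ((Cf k f : ℤ) : ZMod p) ≠ 0) :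
    OkP p k n := by
  obtain e := Fintype.equivFinOfCardEq hn
  exact ⟨fun s l => e (f (e.symm s) l), by rw [Cf_equiv e f]; exact hf⟩

theorem Ok_of {k n : ℕ} (hn : Fintype.card ν = n) (f : ν → Fin k → ν) (hf : Cf k f ≠ 0) : Ok k n := by
  obtain e := Fintype.equivFinOfCardEq hn
  exact ⟨fun s l => e (f (e.symm s) l), by rw [Cf_equiv e f]; exact hf⟩

theorem OkP_add {p k m n : ℕ} [Fact p.Prime] (h1 : OkP p k m) (h2 : OkP p k n) : OkP p k (m + n) := by
  obtain ⟨f, hf⟩ := h1
  obtain ⟨g, hg⟩ := h2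
  refine OkP_of (ν := Fin m ⊕ Fin n) (by simp) (fsum f g) ?_
  rw [Cf_sum]
  push_cast
  exact mul_ne_zero hf hg

theorem Ok_add {k m n : ℕ} (h1 : Ok k m) (h2 : Ok k n) : Ok k (m + n) := by
  obtain ⟨f, hf⟩ := h1
  obtain ⟨g, hg⟩ := h2
  refine Ok_of (ν := Fin m ⊕ Fin n) (by simp) (fsum f g) ?_
  rw [Cf_sum]
  exact mul_ne_zero hf hg

theorem Ok_of_OkP {p k n : ℕ} (h : OkP p k n) : Ok k n := by
  obtain ⟨f, hf⟩ := h
  exact ⟨f, fun h0 => hf (by rw [h0]; simp)⟩

/-- [ban, size 1] the empty set. -/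
theorem Cf_zero {k : ℕ} (f : Fin 0 → Fin k → Fin 0) : Cf k f = 1 := by
  unfold Cf
  simp

/-- [ban, size 1] one row: `f s _ = s` has count `1`. -/
theorem Cf_one (n : ℕ) : Cf 1 (fun (s : Fin n) _ => s) = 1 := by
  unfold Cf
  have hb : Function.Bijective (fun s : Fin n => s) := Function.bijective_id
  have hs : ∀ σ : Perm (Fin 1), Perm.sign σ = 1 := fun σ => by
    rw [Subsingleton.elim σ 1, Perm.sign_one]
  simp only [hb, hs, if_true, Finset.prod_const_one, Units.val_one, mul_one]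
  simp

end Pool.Agent.RB
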