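import Mathlib

set_option autoImplicit false

namespace Pool.Agent.RB

/-- [cy1, size 1] `∑ x, x ^ e` over `ZMod p` for `e < 2 (p - 1)`: `-1` for `e = p - 1`, otherwise `0`. -/
theorem sum_pow_small (p : ℕ) [Fact p.Prime] (e : ℕ) (he : e < 2 * (p - 1)) :
    ∑ x : ZMod p, x ^ e = if e = p - 1 then -1 else 0 := by
  have hp : 2 ≤ p := (Fact.out : p.Prime).two_le
  rcases Nat.lt_or_ge e (p - 1) with h | h
  · rw [if_neg (by omega)]
    refine FiniteField.sum_pow_lt_card_sub_one _ e ?_
    rw [ZMod.card]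
    exact h
  · have h1 : ∑ x : ZMod p, x ^ e = ∑ x : (ZMod p)ˣ, ((x : ZMod p)) ^ e := by
      symm
      refine Finset.sum_of_injOn (fun x : (ZMod p)ˣ => (x : ZMod p)) (fun x _ y _ h => Units.ext h)
        (fun x _ => Finset.mem_coe.2 (Finset.mem_univ _)) ?_ (fun x _ => rfl)
      intro x _ hx
      have hx0 : x = 0 := by
        by_contra h2
        exact hx ⟨Units.mk0 x h2, Finset.mem_coe.2 (Finset.mem_univ _), rfl⟩
      rw [hx0, zero_pow (by omega)]
    rw [h1, FiniteField.sum_pow_units, ZMod.card]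
    by_cases h2 : e = p - 1
    · rw [if_pos h2, if_pos (by rw [h2])]
    · rw [if_neg h2, if_neg]
      rintro ⟨c, hc⟩
      have h3 : c < 2 := by
        by_contra h4
        have h5 : (p - 1) * 2 ≤ (p - 1) * c := Nat.mul_le_mul_left _ (by omega)
        omega
      interval_cases c <;> omega

/-- [cy2, size 1] a maximal set of small weight: `A` with `∑_A m ≤ B`, and if `∑_A m < B` an element `j0 ∉ A` with `B < ∑_A m + m j0`. -/
theorem exists_maximal {ν : Type} [Fintype ν] [DecidableEq ν] (m : ν → ℕ) (B : ℕ) (hs : B ≤ ∑ j, m j) :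
    (∃ A : Finset ν, ∑ j ∈ A, m j = B) ∨
      ∃ (A : Finset ν) (j0 : ν), j0 ∉ A ∧ ∑ j ∈ A, m j < B ∧ B < ∑ j ∈ A, m j + m j0 := by
  classical
  obtain ⟨A, hA, hmax⟩ := Finset.exists_max_image
    ((Finset.univ : Finset (Finset ν)).filter (fun A => ∑ j ∈ A, m j ≤ B)) Finset.card
    ⟨∅, by simp⟩
  rw [Finset.mem_filter] at hA
  rcases hA.2.eq_or_lt with h | h
  · exact Or.inl ⟨A, h⟩
  · right
    have hne : ∃ j0, j0 ∉ A := by
      by_contra hcon
      push Not at hcon
      have : A = Finset.univ := Finset.eq_univ_iff_forall.2 hcon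
      rw [this] at h
      omega
    obtain ⟨j0, hj0⟩ := hne
    refine ⟨A, j0, hj0, h, ?_⟩
    by_contra hle
    push Not at hle
    have h1 := hmax (insert j0 A) (by
      rw [Finset.mem_filter]
      refine ⟨Finset.mem_univ _, ?_⟩
      rw [Finset.sum_insert hj0]
      omega)
    rw [Finset.card_insert_of_notMem hj0] at h1
    omega

private theorem cy3_split {p : ℕ} [Fact p.Prime] {k : ℕ} (f : (Fin (k+1) → ZMod p) → ZMod p) :
    ∑ t : Fin (k+1) → ZMod p, f t = ∑ t' : Fin k → ZMod p, ∑ x : ZMod p, f (Fin.cons x t') := by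
  rw [← (Fin.consEquiv (fun _ => ZMod p)).sum_comp, Fintype.sum_prod_type, Finset.sum_comm]
  rfl

private theorem cy3_x (p : ℕ) [Fact p.Prime] (s M a : ℕ) (hsa : s + a = p - 1) (haM : a ≤ M)
    (hsM : s + M < 2 * (p - 1)) (w : ZMod p) :
    ∑ x : ZMod p, x ^ s * (x + w) ^ M = - ((M.choose a : ℕ) : ZMod p) * w ^ (M - a) := by
  simp_rw [add_pow, Finset.mul_sum]
  rw [Finset.sum_comm]
  have : ∀ b ∈ Finset.range (M + 1), ∑ x : ZMod p, x ^ s * (x ^ b * w ^ (M - b) * ((M.choose b : ℕ) : ZMod p)) =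
      if b = a then - ((M.choose a : ℕ) : ZMod p) * w ^ (M - a) else 0 := by
    intro b hb
    rw [Finset.mem_range] at hb
    have h1 : ∑ x : ZMod p, x ^ s * (x ^ b * w ^ (M - b) * ((M.choose b : ℕ) : ZMod p)) =
        (∑ x : ZMod p, x ^ (s + b)) * (w ^ (M - b) * ((M.choose b : ℕ) : ZMod p)) := by
      rw [Finset.sum_mul]
      refine Finset.sum_congr rfl fun x _ => ?_
      rw [pow_add]; ring
    rw [h1, sum_pow_small p (s + b) (by omega)]
    by_cases hba : b = a
    · subst hba
      rw [if_pos hsa, if_pos rfl]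
      ring
    · rw [if_neg (by omega), if_neg hba, zero_mul]
  rw [Finset.sum_congr rfl this, Finset.sum_ite_eq', if_pos]
  rw [Finset.mem_range]; omega

/-- [cy3, size 3] CHOICE OF `Y`.  Induction on `k` (for all `m`).  `k = 0`: all `m j = 0`.  Step: `exists_maximal` with `B = p - 1`.
First case: `Y j = (1, 0)` for `j ∈ A`, `Y j = (0, Y' j)` otherwise, `Y'` from the induction hypothesis for `m` set to `0` on `A`: the sum is
`(∑ x, x^(p-1)) * (the sum for Y')`.
Second case: `Y j = (1, 0)` for `j ∈ A`, `Y j0 = (1, Y' j0)`, `Y j = (0, Y' j)` otherwise, `Y'` for `m' = 0` on `A`, `m' j0 = m j0 - a`,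
`a = p - 1 - ∑_A m` (`0 < a < m j0`), `m' = m` otherwise (sum `= (k+1)(p-1) - (p-1)`).  With `w = ∑ l, Y' j0 l * t' l`:
`x ^ (∑_A m) * (x + w) ^ (m j0) = ∑_b choose (m j0) b * x ^ (∑_A m + b) * w ^ (m j0 - b)`; sum over `x` (`sum_pow_small`,
`∑_A m + b ≤ ∑_A m + m j0 < 2 (p-1)`): only `b = a` survives: `- choose (m j0) a * w ^ (m j0 - a)`, and `choose (m j0) a ≠ 0` mod `p` since
`m j0 < p`. -/
theorem exists_Y (p : ℕ) [Fact p.Prime] {ν : Type} [Fintype ν] [DecidableEq ν] (k : ℕ) (m : ν → ℕ)
    (hm : ∀ j, m j ≤ p - 1) (hs : ∑ j, m j = k * (p - 1)) :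
    ∃ Y : Matrix ν (Fin k) (ZMod p), ∑ t : Fin k → ZMod p, ∏ j, (∑ l, Y j l * t l) ^ (m j) ≠ 0 := by
  have hp := (Fact.out : p.Prime)
  have hp2 := hp.two_le
  induction k generalizing m with
  | zero =>
    refine ⟨0, ?_⟩
    have h0 : ∀ j, m j = 0 := by
      intro j
      rw [zero_mul] at hs
      exact (Finset.sum_eq_zero_iff.1 hs) j (Finset.mem_univ j)
    simp [h0]
  | succ k ih =>
    rcases exists_maximal m (p - 1) (by rw [hs]; nlinarith) with ⟨A, hA⟩ | ⟨A, j0, hj0, h1, h2⟩
    · have hm' : ∑ j, (if j ∈ A then 0 else m j) = k * (p - 1) := by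
        have h3 : ∑ j, (if j ∈ A then m j else 0) = p - 1 := by
          rw [Finset.sum_ite_mem, Finset.univ_inter, hA]
        have h4 : ∑ j, m j = ∑ j, (if j ∈ A then m j else 0) + ∑ j, (if j ∈ A then 0 else m j) := by
          rw [← Finset.sum_add_distrib]
          refine Finset.sum_congr rfl fun j _ => ?_
          split_ifs <;> simp
        rw [hs, h3, add_mul, one_mul] at h4
        omega
      obtain ⟨Y', hY'⟩ := ih (fun j => if j ∈ A then 0 else m j)
        (fun j => by
          split_ifs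
          · exact Nat.zero_le _
          · exact hm j) hm'
      refine ⟨fun j => if j ∈ A then (Fin.cons 1 0 : Fin (k+1) → ZMod p) else Fin.cons 0 (Y' j), ?_⟩
      rw [cy3_split]
      have key : ∀ (t' : Fin k → ZMod p) (x : ZMod p),
          ∏ j, (∑ l, (if j ∈ A then (Fin.cons 1 0 : Fin (k+1) → ZMod p) else Fin.cons 0 (Y' j)) l *
            (Fin.cons x t' : Fin (k+1) → ZMod p) l) ^ (m j) =
          x ^ (p - 1) * ∏ j, (∑ l, Y' j l * t' l) ^ (if j ∈ A then 0 else m j) := by
        intro t' x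
        rw [← hA, ← Finset.prod_pow_eq_pow_sum]
        have : ∏ i ∈ A, x ^ m i = ∏ j, if j ∈ A then x ^ m j else 1 := by
          rw [Finset.prod_ite_mem, Finset.univ_inter]
        rw [this, ← Finset.prod_mul_distrib]
        refine Finset.prod_congr rfl fun j _ => ?_
        by_cases hj : j ∈ A
        · simp [hj, Fin.sum_univ_succ]
        · simp [hj, Fin.sum_univ_succ]
      simp_rw [key]
      have : ∑ t' : Fin k → ZMod p, ∑ x : ZMod p,
          x ^ (p - 1) * ∏ j, (∑ l, Y' j l * t' l) ^ (if j ∈ A then 0 else m j) =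
          - ∑ t' : Fin k → ZMod p, ∏ j, (∑ l, Y' j l * t' l) ^ (if j ∈ A then 0 else m j) := by
        rw [← Finset.sum_neg_distrib]
        refine Finset.sum_congr rfl fun t' _ => ?_
        rw [← Finset.sum_mul, sum_pow_small p (p - 1) (by omega), if_pos rfl]
        ring
      rw [this]
      exact neg_ne_zero.2 hY'
    · obtain ⟨a, ha⟩ : ∃ a, ∑ j ∈ A, m j + a = p - 1 := ⟨p - 1 - ∑ j ∈ A, m j, by omega⟩
      have ham : a < m j0 := by omega
      set m' : ν → ℕ := fun j => if j ∈ A then 0 else if j = j0 then m j0 - a else m j with hm'def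
      have hm' : ∑ j, m' j = k * (p - 1) := by
        have h4 : ∑ j, m j = ∑ j, ((if j ∈ A then m j else 0) + (if j = j0 then a else 0)) + ∑ j, m' j := by
          rw [← Finset.sum_add_distrib]
          refine Finset.sum_congr rfl fun j _ => ?_
          by_cases hj : j ∈ A
          · have : j ≠ j0 := fun h => hj0 (h ▸ hj)
            simp [hm'def, hj, this]
          · by_cases hj' : j = j0
            · subst hj'
              simp [hm'def, hj]
              omega
            · simp [hm'def, hj, hj']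
        rw [Finset.sum_add_distrib, Finset.sum_ite_mem, Finset.univ_inter, Finset.sum_ite_eq', if_pos (Finset.mem_univ _),
          ha, hs, add_mul, one_mul] at h4
        omega
      obtain ⟨Y', hY'⟩ := ih m' (fun j => by
        simp only [hm'def]
        split_ifs
        · exact Nat.zero_le _
        · have := hm j0; omega
        · exact hm j) hm'
      refine ⟨fun j => if j ∈ A then (Fin.cons 1 0 : Fin (k+1) → ZMod p) else
        if j = j0 then Fin.cons 1 (Y' j) else Fin.cons 0 (Y' j), ?_⟩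
      rw [cy3_split]
      have key : ∀ (t' : Fin k → ZMod p) (x : ZMod p),
          ∏ j, (∑ l, (if j ∈ A then (Fin.cons 1 0 : Fin (k+1) → ZMod p) else
              if j = j0 then Fin.cons 1 (Y' j) else Fin.cons 0 (Y' j)) l *
            (Fin.cons x t' : Fin (k+1) → ZMod p) l) ^ (m j) =
          (x ^ (∑ j ∈ A, m j) * (x + ∑ l, Y' j0 l * t' l) ^ (m j0)) *
            ∏ j, (if j ∈ A then 1 else if j = j0 then 1 else (∑ l, Y' j l * t' l) ^ (m j)) := by
        intro t' x
        rw [← Finset.prod_pow_eq_pow_sum]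
        have e1 : ∏ i ∈ A, x ^ m i = ∏ j, if j ∈ A then x ^ m j else 1 := by
          rw [Finset.prod_ite_mem, Finset.univ_inter]
        have e2 : (x + ∑ l, Y' j0 l * t' l) ^ (m j0) =
            ∏ j, if j = j0 then (x + ∑ l, Y' j0 l * t' l) ^ (m j0) else 1 := by
          rw [Finset.prod_ite_eq', if_pos (Finset.mem_univ _)]
        rw [e1, e2, ← Finset.prod_mul_distrib, ← Finset.prod_mul_distrib]
        refine Finset.prod_congr rfl fun j _ => ?_
        by_cases hj : j ∈ A
        · have : j ≠ j0 := fun h => hj0 (h ▸ hj)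
          simp [hj, this, Fin.sum_univ_succ]
        · by_cases hj' : j = j0
          · subst hj'
            simp [hj, Fin.sum_univ_succ]
          · simp [hj, hj', Fin.sum_univ_succ]
      simp_rw [key]
      have hin : ∀ t' : Fin k → ZMod p, ∑ x : ZMod p,
          (x ^ (∑ j ∈ A, m j) * (x + ∑ l, Y' j0 l * t' l) ^ (m j0)) *
            ∏ j, (if j ∈ A then 1 else if j = j0 then 1 else (∑ l, Y' j l * t' l) ^ (m j)) =
          - (((m j0).choose a : ℕ) : ZMod p) * ∏ j, (∑ l, Y' j l * t' l) ^ (m' j) := by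
        intro t'
        rw [← Finset.sum_mul, cy3_x p (∑ j ∈ A, m j) (m j0) a ha ham.le (by have := hm j0; omega), mul_assoc]
        congr 1
        have e2 : (∑ l, Y' j0 l * t' l) ^ (m j0 - a) =
            ∏ j, if j = j0 then (∑ l, Y' j0 l * t' l) ^ (m j0 - a) else 1 := by
          rw [Finset.prod_ite_eq', if_pos (Finset.mem_univ _)]
        rw [e2, ← Finset.prod_mul_distrib]
        refine Finset.prod_congr rfl fun j _ => ?_
        by_cases hj : j ∈ A
        · have : j ≠ j0 := fun h => hj0 (h ▸ hj)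
          simp [hm'def, hj, this]
        · by_cases hj' : j = j0
          · subst hj'
            simp [hm'def, hj]
          · simp [hm'def, hj, hj']
      simp_rw [hin]
      rw [← Finset.mul_sum]
      refine mul_ne_zero (neg_ne_zero.2 ?_) hY'
      rw [Ne, CharP.cast_eq_zero_iff (ZMod p) p]
      intro hd
      have hlt : m j0 < p := by have := hm j0; omega
      have := (hp.dvd_factorial (n := m j0)).1 (by
        rw [← Nat.choose_mul_factorial_mul_factorial ham.le, mul_assoc]
        exact hd.mul_right _)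
      omega

end Pool.Agent.RB
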