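import Mathlib

set_option autoImplicit false

/-!
# Signed rectangles (Rota's basis conjecture, coinciding bases, characteristic zero)

`ν` is a finite set (columns and symbols), `k` the number of special rows.
-/

namespace Pool.Agent.RB

open Equiv

variable {ν : Type} [Fintype ν] [DecidableEq ν]

/-- `Cf k f`: signed number of ways to use, for every symbol `s` and row `i`, the column
`f s (δ s i)`, such that in every row the map symbol ↦ column is a bijection. -/
def Cf (k : ℕ) (f : ν → Fin k → ν) : ℤ :=
  ∑ δ : ν → Perm (Fin k), (∏ s, (Perm.sign (δ s) : ℤ)) *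
    ∏ i : Fin k, (if Function.Bijective (fun s => f s (δ s i)) then (1 : ℤ) else 0)

/-- Sign of a self-map of `ν`, zero if it is not bijective. -/
noncomputable def eps (g : ν → ν) : ℤ := Matrix.det (Matrix.of fun j b => if g j = b then (1 : ℤ) else 0)

/-- `Wh k h`: the same count organised by columns. -/
noncomputable def Wh (k : ℕ) (h : ν → Fin k → ν) : ℤ :=
  ∑ c : ν → Perm (Fin k), (∏ j, (Perm.sign (c j) : ℤ)) * ∏ i : Fin k, eps (fun j => h j (c j i))

/-- The multilinear form `T(Y)`. -/
def TT {R : Type} [CommRing R] (k : ℕ) (Y : ν → Matrix ν (Fin k) R) : R :=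
  ∑ a : Fin k → Perm ν, ∏ s, Matrix.det (Matrix.of fun (i l : Fin k) => Y s (a i s) l)

/-- `f` (symbols to columns) and `h` (columns to symbols) describe the same `k`-regular incidence. -/
structure Inc (k : ℕ) (f h : ν → Fin k → ν) : Prop where
  finj : ∀ s, Function.Injective (f s)
  hinj : ∀ j, Function.Injective (h j)
  iff : ∀ s j, j ∈ Set.range (f s) ↔ s ∈ Set.range (h j)

/-- There is a family with nonzero signed count modulo `p`, on a set with `n` elements. -/
def OkP (p k n : ℕ) : Prop := ∃ f : Fin n → Fin k → Fin n, ((Cf k f : ℤ) : ZMod p) ≠ 0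

/-- There is a family with nonzero signed count, on a set with `n` elements. -/
def Ok (k n : ℕ) : Prop := ∃ f : Fin n → Fin k → Fin n, Cf k f ≠ 0

end Pool.Agent.RB
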