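import Mathlib

set_option autoImplicit false

namespace Pool.Agent.RB

open Equiv

/-- [de1, size 2] signed derangements: `det (J - I)`.  (`Matrix.det_apply'`: the entry is `1` off the diagonal, `0` on it; evaluate:
`J - I = -(I - u uᵀ)`, `Matrix.det_one_add_replicateCol_mul_replicateRow`-like lemma, `det (I - u uᵀ) = 1 - k`.) -/
theorem der_sum (k : ℕ) (hk : 1 ≤ k) :
    (∑ π : Perm (Fin k), if ∀ i, π i ≠ i then (Perm.sign π : ℤ) else 0) = (-1) ^ (k - 1) * ((k : ℤ) - 1) := by
  have h1 : Matrix.det (Matrix.of fun i j : Fin k => if i = j then (0 : ℤ) else 1) =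
      ∑ π : Perm (Fin k), if ∀ i, π i ≠ i then (Perm.sign π : ℤ) else 0 := by
    rw [Matrix.det_apply']
    refine Finset.sum_congr rfl fun π _ => ?_
    split_ifs with h
    · rw [Finset.prod_eq_one (fun i _ => by rw [Matrix.of_apply, if_neg (h i)]), mul_one]
      exact Int.cast_id
    · push Not at h
      obtain ⟨i, hi⟩ := h
      rw [Finset.prod_eq_zero (Finset.mem_univ i) (by rw [Matrix.of_apply, if_pos hi]), mul_zero]
  have h2 : (Matrix.of fun i j : Fin k => if i = j then (0 : ℤ) else 1) =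
      -(1 + Matrix.replicateCol Unit (fun _ : Fin k => (-1 : ℤ)) *
        Matrix.replicateRow Unit (fun _ : Fin k => (1 : ℤ))) := by
    ext i j
    rw [Matrix.neg_apply, Matrix.add_apply, Matrix.mul_apply, Matrix.of_apply, Matrix.one_apply]
    split_ifs <;> simp
  rw [← h1, h2, Matrix.det_neg, Matrix.det_one_add_replicateCol_mul_replicateRow]
  have h3 : (fun _ : Fin k => (1 : ℤ)) ⬝ᵥ (fun _ : Fin k => (-1 : ℤ)) = -(k : ℤ) := by
    simp [dotProduct]
  rw [h3, Fintype.card_fin]
  obtain ⟨m, rfl⟩ : ∃ m, k = m + 1 := ⟨k - 1, by omega⟩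
  rw [Nat.add_sub_cancel, pow_succ]
  push_cast
  ring

/-- [de2, size 1] pairs of permutations which differ everywhere (`π' = π * τ`, `τ` a derangement; `∑ 1 = k!`). -/
theorem pair_sum (k : ℕ) (hk : 1 ≤ k) :
    (∑ π : Perm (Fin k), ∑ π' : Perm (Fin k),
      if ∀ i, π i ≠ π' i then (Perm.sign π : ℤ) * (Perm.sign π' : ℤ) else 0) =
    (k.factorial : ℤ) * ((-1) ^ (k - 1) * ((k : ℤ) - 1)) := by
  have h1 : ∀ π : Perm (Fin k), (∑ π' : Perm (Fin k),
      if ∀ i, π i ≠ π' i then (Perm.sign π : ℤ) * (Perm.sign π' : ℤ) else 0) =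
      (-1) ^ (k - 1) * ((k : ℤ) - 1) := by
    intro π
    rw [← der_sum k hk]
    rw [← Equiv.sum_comp (Equiv.mulLeft π)]
    refine Finset.sum_congr rfl fun τ _ => ?_
    have h2 : (∀ i, π i ≠ (Equiv.mulLeft π τ) i) ↔ ∀ i, τ i ≠ i := by
      refine forall_congr' fun i => ?_
      rw [Equiv.coe_mulLeft, Perm.mul_apply]
      constructor
      · intro h h'
        exact h (by rw [h'])
      · intro h h'
        exact h (π.injective h').symm
    have h3 : (Perm.sign π : ℤ) * (Perm.sign (Equiv.mulLeft π τ) : ℤ) = (Perm.sign τ : ℤ) := by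
      rw [Equiv.coe_mulLeft, Perm.sign_mul, Units.val_mul, ← mul_assoc, ← Units.val_mul,
        Int.units_mul_self, Units.val_one, one_mul]
    rw [h3]
    by_cases h4 : ∀ i, τ i ≠ i
    · rw [if_pos (h2.2 h4), if_pos h4]
    · rw [if_neg (fun h => h4 (h2.1 h)), if_neg h4]
  rw [Finset.sum_congr rfl fun π _ => h1 π, Finset.sum_const, Finset.card_univ, Fintype.card_perm,
    Fintype.card_fin, nsmul_eq_mul]

end Pool.Agent.RB
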