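import Pool.Agent.RB.Defs

set_option autoImplicit false

namespace Pool.Agent.RB

open Equiv

/-- [dp1, size 2] the sum over a translation invariant function vanishes: if `W v = 0`, `v ≠ 0`, then the function
`t ↦ ∏ i, (W t)_i ^ e` is invariant under `t ↦ t + c v`, so its sum over `t` is `0` in `ZMod p`.  (E.g.: the sum over `t` equals the sum
over `t` of `F (t + c v)` for each `c`; or: split `Fin k → ZMod p` along a coordinate `l` with `v l ≠ 0`, the fibres have `p` elements.) -/
theorem sum_inv_zero (p : ℕ) [Fact p.Prime] (k : ℕ) (F : (Fin k → ZMod p) → ZMod p) (v : Fin k → ZMod p)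
    (hv : v ≠ 0) (hF : ∀ t, F (t + v) = F t) : ∑ t, F t = 0 := by
  obtain ⟨l, hl⟩ := Function.ne_iff.mp hv
  have hl0 : v l ≠ 0 := hl
  -- the partial sums over the fibres of the coordinate `l`
  let G : ZMod p → ZMod p := fun x => ∑ t with t l = x, F t
  have hG : ∀ x, G (x + v l) = G x := by
    intro x
    refine (Finset.sum_bij (fun t _ => t + v) ?_ ?_ ?_ ?_).symm
    · intro t ht
      have h := (Finset.mem_filter.mp ht).2
      exact Finset.mem_filter.mpr ⟨Finset.mem_univ _, by rw [Pi.add_apply, h]⟩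
    · intro a _ b _ hab
      exact add_right_cancel hab
    · intro b hb
      have h := (Finset.mem_filter.mp hb).2
      refine ⟨b - v, Finset.mem_filter.mpr ⟨Finset.mem_univ _, ?_⟩, sub_add_cancel b v⟩
      rw [Pi.sub_apply, h, add_sub_cancel_right]
    · intro t _
      exact (hF t).symm
  have hGn : ∀ (n : ℕ), G ((n : ZMod p) * v l) = G 0 := by
    intro n
    induction n with
    | zero => simp
    | succ m ih =>
      rw [Nat.cast_succ, add_mul, one_mul, hG, ih]
  have hGc : ∀ x, G x = G 0 := by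
    intro x
    have h := hGn (x / v l).val
    rw [ZMod.natCast_zmod_val, div_mul_cancel₀ _ hl0] at h
    exact h
  have hsum : ∑ t, F t = ∑ x : ZMod p, G x := by
    exact (Finset.sum_fiberwise Finset.univ (fun t : Fin k → ZMod p => t l) F).symm
  rw [hsum, Finset.sum_congr rfl (fun x _ => hGc x), Finset.sum_const, Finset.card_univ, ZMod.card]
  simp

/-- [dp2, size 2] GLYNN'S FORMULA.  Proof: `det W ≠ 0`: `t ↦ W t` is a bijection (`Matrix.toLin'`-equivalence, `Matrix.mulVec_injective...`),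
so the left side is `∑ t, ∏ i, t i ^ (p-1) = ∏ i, ∑ x, x ^ (p-1) = (-1)^k` (`Finset.prod_univ_sum`; `∑ x : ZMod p, x^(p-1) = -1`), and
`det W ^ (p-1) = 1` (`ZMod.pow_card_sub_one_eq_one`).  `det W = 0`: `Matrix.exists_mulVec_eq_zero_iff` and `sum_inv_zero`; the right side
is `0` since `p - 1 ≥ 1`. -/
theorem det_pow (p : ℕ) [Fact p.Prime] (k : ℕ) (W : Matrix (Fin k) (Fin k) (ZMod p)) :
    ∑ t : Fin k → ZMod p, ∏ i, (W.mulVec t i) ^ (p - 1) = (-1) ^ k * W.det ^ (p - 1) := by
  have hp1 : p - 1 ≠ 0 := Nat.sub_ne_zero_of_lt (Fact.out : p.Prime).one_lt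
  by_cases hd : W.det = 0
  · obtain ⟨v, hv, hv0⟩ := Matrix.exists_mulVec_eq_zero_iff.mpr hd
    rw [hd, zero_pow hp1, mul_zero]
    refine sum_inv_zero p k (fun t => ∏ i, (W.mulVec t i) ^ (p - 1)) v hv ?_
    intro t
    rw [Matrix.mulVec_add, hv0, add_zero]
  · have hinj : Function.Injective W.mulVec := Matrix.mulVec_injective_of_det_ne_zero hd
    have hbij : Function.Bijective W.mulVec := Finite.injective_iff_bijective.mp hinj
    rw [hbij.sum_comp (fun t : Fin k → ZMod p => ∏ i, (t i) ^ (p - 1))]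
    have h1 : ∑ t : Fin k → ZMod p, ∏ i, (t i) ^ (p - 1) = ∏ _i : Fin k, ∑ x : ZMod p, x ^ (p - 1) := by
      rw [Finset.prod_univ_sum, Fintype.piFinset_univ]
    have h2 : ∑ x : ZMod p, x ^ (p - 1) = -1 := by
      have h3 : ∀ x : ZMod p, x ^ (p - 1) = 1 - (if x = 0 then 1 else 0) := by
        intro x
        by_cases hx : x = 0
        · rw [hx, zero_pow hp1, if_pos rfl, sub_self]
        · rw [ZMod.pow_card_sub_one_eq_one hx, if_neg hx, sub_zero]
      rw [Finset.sum_congr rfl (fun x _ => h3 x), Finset.sum_sub_distrib]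
      simp [ZMod.card]
    rw [h1, Finset.prod_congr rfl (fun _ _ => h2), Finset.prod_const, Finset.card_univ,
      Fintype.card_fin, ZMod.pow_card_sub_one_eq_one hd, mul_one]

/-- [sp, size 2] power sums with the shift `p - 2`, `p` odd: only exponent one survives (`FiniteField.sum_pow_lt_card_sub_one`,
`e = 0`: `p - 2 < p - 1`, and `p - 2 ≥ 1`; `e = 1`: exponent `p - 1`; `2 ≤ e ≤ p - 1`: exponent between `p` and `2p - 3`, use
`x ^ p = x`, i.e. `x ^ (p - 2 + e) = x ^ (e - 1)`, `1 ≤ e - 1 < p - 1`). -/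
theorem sum_pow_shift (p : ℕ) [Fact p.Prime] (hp : p ≠ 2) (e : ℕ) (he : e ≤ p - 1) :
    ∑ x : ZMod p, x ^ (p - 2 + e) = if e = 1 then -1 else 0 := by
  have hp2 : 2 ≤ p := (Fact.out : p.Prime).two_le
  have hp3 : 3 ≤ p := by omega
  have hc : Fintype.card (ZMod p) = p := ZMod.card p
  rcases Nat.lt_trichotomy e 1 with h | h | h
  · have he0 : e = 0 := by omega
    subst he0
    rw [if_neg (by omega), add_zero]
    exact FiniteField.sum_pow_lt_card_sub_one (ZMod p) (p - 2) (by rw [hc]; omega)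
  · subst h
    rw [if_pos rfl]
    have h1 : p - 2 + 1 = p - 1 := by omega
    rw [h1]
    have hp1 : p - 1 ≠ 0 := by omega
    have h3 : ∀ x : ZMod p, x ^ (p - 1) = 1 - (if x = 0 then 1 else 0) := by
      intro x
      by_cases hx : x = 0
      · rw [hx, zero_pow hp1, if_pos rfl, sub_self]
      · rw [ZMod.pow_card_sub_one_eq_one hx, if_neg hx, sub_zero]
    rw [Finset.sum_congr rfl (fun x _ => h3 x), Finset.sum_sub_distrib]
    simp [ZMod.card]
  · rw [if_neg (by omega)]
    have h1 : ∀ x : ZMod p, x ^ (p - 2 + e) = x ^ (e - 1) := by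
      intro x
      have h2 : p - 2 + e = p + (e - 2) := by omega
      have h3 : e - 1 = 1 + (e - 2) := by omega
      rw [h2, h3, pow_add, pow_add, ZMod.pow_card, pow_one]
    rw [Finset.sum_congr rfl (fun x _ => h1 x)]
    exact FiniteField.sum_pow_lt_card_sub_one (ZMod p) (e - 1) (by rw [hc]; omega)

end Pool.Agent.RB
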