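import Pool.Agent.RB.Sgn
import Pool.Agent.RotaP.Tra
import Pool.Agent.RotaP.Koe

set_option autoImplicit false

namespace Pool.Agent.RB

open Equiv Pool.Agent.RotaP

variable {α F W : Type} [Field F] [AddCommGroup W] [Module F W]

private theorem la1_ind (M : Matroid α) (v : α → W) (hv : ∀ I ⊆ M.E, M.Indep I ↔ LinearIndepOn F v I) {n : ℕ}
    (b : Fin n → α) (hb : M.IsBase (Set.range b)) (hbi : Function.Injective b) :
    LinearIndependent F (v ∘ b) :=
  (linearIndepOn_range_iff hbi v).mp ((hv _ hb.subset_ground).mp hb.indep)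

/-- [la1, size 3] COORDINATES.  `b`, `c` enumerate bases of `M` (`n` elements), `M` represented by `v`.  `v ∘ b` is linearly independent;
every `v (c j)` is in its span (otherwise `c j ∉ range b` and `insert (c j) (range b)` is independent in `M`, contradicting the maximality of the
base `range b`; `range b, range c ⊆ M.E`), so there are coordinates `A x j`.  `det A ≠ 0`: `v ∘ c` is linearly independent
(`Matrix.exists_mulVec_eq_zero_iff`: `A u = 0` gives `∑ j, u j • v (c j) = 0`). -/
theorem coords (M : Matroid α) (v : α → W) (hv : ∀ I ⊆ M.E, M.Indep I ↔ LinearIndepOn F v I) {n : ℕ}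
    (b c : Fin n → α) (hb : M.IsBase (Set.range b)) (hbi : Function.Injective b)
    (hc : M.IsBase (Set.range c)) (hci : Function.Injective c) :
    ∃ A : Matrix (Fin n) (Fin n) F, A.det ≠ 0 ∧ ∀ j, v (c j) = ∑ x, A x j • v (b x) := by
  classical
  have hbl := la1_ind M v hv b hb hbi
  have hcl := la1_ind M v hv c hc hci
  have hspan : ∀ j, v (c j) ∈ Submodule.span F (Set.range (v ∘ b)) := by
    intro j
    by_contra hns
    have hnb : c j ∉ Set.range b := by
      rintro ⟨x, hx⟩
      exact hns (Submodule.subset_span ⟨x, by simp [hx]⟩)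
    have h1 : LinearIndepOn F v (insert (c j) (Set.range b)) := by
      rw [linearIndepOn_insert_iff]
      refine ⟨(hv _ hb.subset_ground).mp hb.indep, fun h => ?_⟩
      rw [← Set.range_comp] at h
      exact absurd h hns
    have h2 : insert (c j) (Set.range b) ⊆ M.E := by
      intro x hx
      rcases hx with hx | hx
      · rw [hx]
        exact hc.subset_ground ⟨j, rfl⟩
      · exact hb.subset_ground hx
    have h3 := (hv _ h2).mpr h1
    have h4 := hb.eq_of_subset_indep h3 (Set.subset_insert _ _)
    exact hnb (h4 ▸ Set.mem_insert _ _)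
  have hex : ∀ j, ∃ g : Fin n → F, ∑ i, g i • (v ∘ b) i = v (c j) := fun j =>
    (Submodule.mem_span_range_iff_exists_fun F).mp (hspan j)
  choose g hg using hex
  refine ⟨Matrix.of fun x j => g j x, ?_, ?_⟩
  · intro hdet
    obtain ⟨u, hu0, hu⟩ := Matrix.exists_mulVec_eq_zero_iff.mpr hdet
    apply hu0
    funext j
    refine Fintype.linearIndependent_iff.mp hcl u ?_ j
    have h1 : ∀ x, ∑ j, g j x * u j = 0 := by
      intro x
      have := congrFun hu x
      simpa [Matrix.mulVec, dotProduct] using this
    calc ∑ j, u j • (v ∘ c) j = ∑ j, ∑ x, (g j x * u j) • v (b x) := by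
          refine Finset.sum_congr rfl fun j _ => ?_
          rw [Function.comp_apply, ← hg j, Finset.smul_sum]
          refine Finset.sum_congr rfl fun x _ => ?_
          rw [smul_smul, mul_comm, Function.comp_apply]
      _ = ∑ x, (∑ j, g j x * u j) • v (b x) := by
          rw [Finset.sum_comm]
          refine Finset.sum_congr rfl fun x _ => ?_
          rw [Finset.sum_smul]
      _ = 0 := by
          simp [h1]
  · intro j
    rw [← hg j]
    rfl

/-- [la2, size 3] ONE COLUMN.  `U = image h` (`k` elements), `w i = ∑ x, a x i • v (b x)`; if `det (a (h l) i) ≠ 0` then the vectors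
`v (b x)`, `x ∉ U`, together with the `w i` are linearly independent.  Proof: a relation
`∑_{x ∉ U} y x • v (b x) + ∑ i, z i • w i = 0`: coefficients at `b (h l)` (`v ∘ b` is independent): `∑ i, a (h l) i * z i = 0` for all `l`,
so `z = 0`, then `y = 0`. -/
theorem col_indep {n k : ℕ} (u : Fin n → W) (hu : LinearIndependent F u) (h : Fin k → Fin n)
    (hh : Function.Injective h) (a : Fin n → Fin k → F) (w : Fin k → W) (hw : ∀ i, w i = ∑ x, a x i • u x)
    (hdet : Matrix.det (Matrix.of fun (i l : Fin k) => a (h l) i) ≠ 0) :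
    LinearIndependent F (Sum.elim (fun x : {x // x ∉ Finset.univ.image h} => u x.1) w) := by
  classical
  rw [Fintype.linearIndependent_iff]
  intro g hg
  rw [Fintype.sum_sum_type] at hg
  simp only [Sum.elim_inl, Sum.elim_inr] at hg
  let y : Fin n → F := fun x => if hx : x ∉ Finset.univ.image h then g (Sum.inl ⟨x, hx⟩) else 0
  have h1 : ∑ x : {x // x ∉ Finset.univ.image h}, g (Sum.inl x) • u x.1 = ∑ x, y x • u x := by
    have h2 : ∑ x ∈ Finset.univ.filter (fun x => x ∉ Finset.univ.image h), y x • u x =
        ∑ x : {x // x ∉ Finset.univ.image h}, y x.1 • u x.1 :=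
      Finset.sum_subtype _ (fun x => by
        rw [Finset.mem_filter]
        exact ⟨fun h => h.2, fun h => ⟨Finset.mem_univ _, h⟩⟩) (fun x => y x • u x)
    have h3 : ∑ x ∈ Finset.univ.filter (fun x => x ∉ Finset.univ.image h), y x • u x =
        ∑ x, y x • u x := by
      refine Finset.sum_subset (Finset.filter_subset _ _) ?_
      intro x _ hx
      have hx' : ¬ (x ∉ Finset.univ.image h) := fun h4 =>
        hx (Finset.mem_filter.mpr ⟨Finset.mem_univ _, h4⟩)
      have hy : y x = 0 := dif_neg hx'
      rw [hy, zero_smul]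
    rw [← h3, h2]
    refine Finset.sum_congr rfl fun x _ => ?_
    have hy : y x.1 = g (Sum.inl x) := dif_pos x.2
    rw [hy]
  have h2 : ∑ i, g (Sum.inr i) • w i = ∑ x, (∑ i, g (Sum.inr i) * a x i) • u x := by
    have h3 : ∀ i, g (Sum.inr i) • w i = ∑ x, (g (Sum.inr i) * a x i) • u x := by
      intro i
      rw [hw i, Finset.smul_sum]
      exact Finset.sum_congr rfl fun x _ => smul_smul _ _ _
    rw [Finset.sum_congr rfl (fun i _ => h3 i), Finset.sum_comm]
    exact Finset.sum_congr rfl fun x _ => (Finset.sum_smul).symm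
  rw [h1, h2, ← Finset.sum_add_distrib] at hg
  have h3 : ∑ x, (y x + ∑ i, g (Sum.inr i) * a x i) • u x = 0 := by
    rw [← hg]
    exact Finset.sum_congr rfl fun x _ => add_smul _ _ _
  have h4 := Fintype.linearIndependent_iff.mp hu _ h3
  have h5 : Matrix.vecMul (fun i => g (Sum.inr i)) (Matrix.of fun (i l : Fin k) => a (h l) i) = 0 := by
    funext l
    have h6 := h4 (h l)
    have hy : y (h l) = 0 := dif_neg (fun h7 => h7 (Finset.mem_image_of_mem h (Finset.mem_univ l)))
    rw [hy, zero_add] at h6
    exact h6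
  have h6 := Matrix.eq_zero_of_vecMul_eq_zero hdet h5
  have h7 : ∀ i, g (Sum.inr i) = 0 := fun i => congr_fun h6 i
  intro i
  rcases i with x | i
  · have h8 := h4 x.1
    have hy : y x.1 = g (Sum.inl x) := dif_pos x.2
    rw [hy, Finset.sum_eq_zero (fun i _ => by rw [h7 i, zero_mul]), add_zero] at h8
    exact h8
  · exact h7 i

/-- [la3, size 3] THE ARRAY.  `rows (e i) = c i` for `i : Fin k`, all other rows are `b`.  Proof: `A i` from `coords`; `σ`, `h` from `core`
(`ν = Fin n`).  `Q j = (univ.image (h j))ᶜ` has `n - k` elements and every `x` is in exactly `n - k` of them; `koenig n (n - k) Q` gives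
`ρ`; the indices outside `range e` are in bijection with `Fin (n - k)`.  Permutations of the rows: `σ i` for `e i`, `ρ _` outside.
Column `j`: the elements `b x`, `x ∈ Q j`, and `c i (σ i j)`: by `col_indep` (with `a x i = A i x (σ i j)`, `u = v ∘ b`) the family is linearly
independent under `v`, so it is injective, its range is independent in `M` (`hv`) and has `n` elements, so
`M.eRk = n` (`Matroid.Indep.eRk_eq_encard`). -/
theorem arr_lin [DecidableEq α] (M : Matroid α) (v : α → W) (hv : ∀ I ⊆ M.E, M.Indep I ↔ LinearIndepOn F v I)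
    {n k : ℕ} (f : Fin n → Fin k → Fin n) (hf : ((Cf k f : ℤ) : F) ≠ 0)
    (b : Fin n → α) (hb : M.IsBase (Set.range b)) (hbi : Function.Injective b)
    (c : Fin k → Fin n → α) (hc : ∀ i, M.IsBase (Set.range (c i))) (hci : ∀ i, Function.Injective (c i))
    (rows : Fin n → Fin n → α) (e : Fin k → Fin n) (he : Function.Injective e) (h1 : ∀ i, rows (e i) = c i)
    (h2 : ∀ i, i ∉ Set.range e → rows i = b) : Arr (ofM M) n rows := by
  classical
  have hkn : k ≤ n := by
    have := Fintype.card_le_of_injective e he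
    simpa using this
  have hA : ∀ i, ∃ A : Matrix (Fin n) (Fin n) F, A.det ≠ 0 ∧ ∀ j, v (c i j) = ∑ x, A x j • v (b x) :=
    fun i => coords M v hv b (c i) hb hbi (hc i) (hci i)
  choose A hdet hA using hA
  obtain ⟨σ0, h, hinj, hcount, hcol⟩ := core hf A hdet
  have hQ1 : ∀ j, ((Finset.univ.image (h j))ᶜ).card = n - k := by
    intro j
    rw [Finset.card_compl, Finset.card_image_of_injective _ (hinj j), Fintype.card_fin, Finset.card_univ,
      Fintype.card_fin]
  have hQ2 : ∀ x, (Finset.univ.filter (fun j => x ∈ (Finset.univ.image (h j))ᶜ)).card = n - k := by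
    intro x
    have h3 := hcount x
    have h4 : Finset.univ.filter (fun j => x ∈ (Finset.univ.image (h j))ᶜ) =
        (Finset.univ.filter (fun j => x ∈ Finset.univ.image (h j)))ᶜ := by
      ext j
      simp
    rw [h4, Finset.card_compl, h3, Fintype.card_fin]
  obtain ⟨ρ, hρ⟩ := koenig n (n - k) (fun j => (Finset.univ.image (h j))ᶜ) hQ1 hQ2
  have hcard : Fintype.card {i : Fin n // i ∉ Finset.univ.image e} = n - k := by
    rw [Fintype.card_of_subtype ((Finset.univ.image e)ᶜ) (by simp), Finset.card_compl,
      Finset.card_image_of_injective _ he, Fintype.card_fin, Finset.card_univ, Fintype.card_fin]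
  let φ := Fintype.equivFinOfCardEq hcard
  have hσ : ∀ i : Fin n, ∃ τ : Perm (Fin n), (∀ i', e i' = i → τ = σ0 i') ∧
      (∀ hi : i ∉ Finset.univ.image e, τ = ρ (φ ⟨i, hi⟩)) := by
    intro i
    by_cases hi : i ∈ Finset.univ.image e
    · obtain ⟨i', -, hi'⟩ := Finset.mem_image.mp hi
      refine ⟨σ0 i', fun i'' h3 => ?_, fun h3 => absurd hi h3⟩
      rw [he (hi'.trans h3.symm)]
    · refine ⟨ρ (φ ⟨i, hi⟩), fun i' h3 => ?_, fun _ => rfl⟩
      exact absurd (Finset.mem_image.mpr ⟨i', Finset.mem_univ _, h3⟩) hi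
  choose σ hσ1 hσ2 using hσ
  refine ⟨σ, fun j => ?_⟩
  let G : {x // x ∉ Finset.univ.image (h j)} ⊕ Fin k → α := Sum.elim (fun x => b x.1) (fun i => c i (σ0 i j))
  have hG : LinearIndependent F (v ∘ G) := by
    have h3 := col_indep (fun x => v (b x)) (la1_ind M v hv b hb hbi) (h j) (hinj j)
      (fun x i => A i x (σ0 i j)) (fun i => v (c i (σ0 i j))) (fun i => hA i (σ0 i j)) (hcol j)
    have h4 : v ∘ G = Sum.elim (fun x : {x // x ∉ Finset.univ.image (h j)} => v (b x.1))
        (fun i => v (c i (σ0 i j))) := by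
      funext x
      rcases x with x | x <;> rfl
    rw [h4]
    exact h3
  have hGi : Function.Injective G := Function.Injective.of_comp hG.injective
  have hGE : Set.range G ⊆ M.E := by
    rintro y ⟨x, rfl⟩
    rcases x with x | x
    · exact hb.subset_ground ⟨x.1, rfl⟩
    · exact (hc x).subset_ground ⟨_, rfl⟩
  have hGind : M.Indep (Set.range G) := (hv _ hGE).mpr ((linearIndepOn_range_iff hGi v).mpr hG)
  have hT : (ofM M).r (Finset.univ.image G) = n := by
    rw [ofM_r, Finset.coe_image, Finset.coe_univ, Set.image_univ, hGind.eRk_eq_encard]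
    have h3 : Set.range G = ((Finset.univ.image G : Finset α) : Set α) := by
      rw [Finset.coe_image, Finset.coe_univ, Set.image_univ]
    rw [h3, Set.encard_coe_eq_coe_finsetCard, ENat.toNat_natCast, Finset.card_image_of_injective _ hGi,
      Finset.card_univ, Fintype.card_sum, Fintype.card_fin,
      Fintype.card_of_subtype ((Finset.univ.image (h j))ᶜ) (by simp), hQ1 j]
    omega
  have hsub : Finset.univ.image G ⊆ Finset.univ.image (fun i => rows i (σ i j)) := by
    intro y hy
    obtain ⟨x, -, rfl⟩ := Finset.mem_image.mp hy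
    rcases x with x | i'
    · have h3 : x.1 ∈ Finset.univ.image (fun l => ρ l j) := by
        rw [hρ j]
        simpa using x.2
      obtain ⟨l, -, hl⟩ := Finset.mem_image.mp h3
      have hi := (φ.symm l).2
      refine Finset.mem_image.mpr ⟨(φ.symm l).1, Finset.mem_univ _, ?_⟩
      have h4 := hσ2 (φ.symm l).1 hi
      rw [Subtype.coe_eta, Equiv.apply_symm_apply] at h4
      have h5 : rows (φ.symm l).1 = b := by
        refine h2 _ ?_
        rintro ⟨i', hi'⟩
        exact hi (Finset.mem_image.mpr ⟨i', Finset.mem_univ _, hi'⟩)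
      rw [h4, h5, hl]
      rfl
    · refine Finset.mem_image.mpr ⟨e i', Finset.mem_univ _, ?_⟩
      rw [h1 i', hσ1 (e i') i' rfl]
      rfl
  apply le_antisymm
  · refine ((ofM M).r_le_card _).trans ?_
    refine Finset.card_image_le.trans ?_
    rw [Finset.card_univ, Fintype.card_fin]
  · exact hT.ge.trans ((ofM M).r_mono hsub)

/-- [fi1, size 2] COINCIDING BASES.  Proof: `n = 0` trivial.  `n ≥ 1`: `k ≤ n` (`exists_inc` for `f`: `Cf k f ≠ 0`; `Inc.finj`), so there is
`K' ⊇ K` with `k` elements, `K' = range e`, `e` injective.  If there is `i0 ∉ K'`: `transfer` with `rep i = i` for `i ∈ K'`, `rep i = i0` otherwise, and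
`arr_lin` with `b = a i0`, `c i = a (e i)`.  If `K' = univ`: `rep i = i`, `b = a i` for any `i`.  (Enumerations are injective: `n` elements.) -/
theorem rota_coinc (M : Matroid α) (v : α → W) (hv : ∀ I ⊆ M.E, M.Indep I ↔ LinearIndepOn F v I)
    {n k : ℕ} (f : Fin n → Fin k → Fin n) (hf : ((Cf k f : ℤ) : F) ≠ 0) (B : Fin n → Set α)
    (hB : ∀ i, M.IsBase (B i)) (hn : ∀ i, (B i).encard = (n : ℕ∞))
    (hd : ∀ i j, i ≠ j → Disjoint (B i) (B j)) (K : Finset (Fin n)) (hK : K.card ≤ k)
    (hpar : ∀ i j, i ∉ K → j ∉ K → ∀ x ∈ B i, ∃ y ∈ B j, M.closure {x} = M.closure {y}) :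
    ∃ T : Fin n → Set α, (∀ j, M.IsBase (T j)) ∧ (∀ j i, (T j ∩ B i).encard = 1) ∧
      (∀ j l, j ≠ l → Disjoint (T j) (T l)) := by
  classical
  rcases Nat.eq_zero_or_pos n with rfl | hpos
  · exact ⟨fun j => j.elim0, fun j => j.elim0, fun j => j.elim0, fun j => j.elim0⟩
  have hC : Cf k f ≠ 0 := fun h0 => hf (by rw [h0]; simp)
  obtain ⟨h, hI⟩ := exists_inc hC
  have hkn : k ≤ n := by
    have := Fintype.card_le_of_injective _ (hI.finj ⟨0, hpos⟩)
    simpa using this
  obtain ⟨K', hKK', -, hK'⟩ := Finset.exists_subsuperset_card_eq (Finset.subset_univ K) hK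
    (by rw [Finset.card_univ, Fintype.card_fin]; exact hkn)
  set e : Fin k → Fin n := fun i => K'.orderEmbOfFin hK' i with hedef
  have he : Function.Injective e := (K'.orderEmbOfFin hK').injective
  have hemem : ∀ i, e i ∈ K' := fun i => K'.orderEmbOfFin_mem hK' i
  have hran : ∀ i, i ∉ Set.range e → i ∉ K' := by
    intro i hi hiK
    apply hi
    have := Finset.range_orderEmbOfFin K' hK'
    have h2 : i ∈ Set.range (K'.orderEmbOfFin hK') := by rw [this]; exact hiK
    exact h2
  have inj : ∀ a : Fin n → Fin n → α, (∀ i, Set.range (a i) = B i) → ∀ i, Function.Injective (a i) := by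
    intro a ha i
    have h1 : ((Finset.univ.image (a i) : Finset α) : Set α) = B i := by
      rw [Finset.coe_image, Finset.coe_univ, Set.image_univ, ha i]
    have h2 := hn i
    rw [← h1, Set.encard_coe_eq_coe_finsetCard] at h2
    have h3 : (Finset.univ.image (a i)).card = (Finset.univ : Finset (Fin n)).card := by
      rw [Finset.card_univ, Fintype.card_fin]
      exact_mod_cast h2
    have h4 := Finset.card_image_iff.mp h3
    exact fun x y hxy => h4 (by simp) (by simp) hxy
  have base : ∀ a : Fin n → Fin n → α, (∀ i, Set.range (a i) = B i) → ∀ i, M.IsBase (Set.range (a i)) := by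
    intro a ha i
    rw [ha i]
    exact hB i
  by_cases hc : ∃ i0, i0 ∉ K'
  · obtain ⟨i0, hi0⟩ := hc
    refine transfer M n B hB hn hd (fun i => if i ∈ K' then i else i0) ?_ ?_
    · intro i x hx
      by_cases hi : i ∈ K'
      · simp only [if_pos hi] at hx
        exact ⟨x, hx, rfl⟩
      · simp only [if_neg hi] at hx
        exact hpar i0 i (fun h => hi0 (hKK' h)) (fun h => hi (hKK' h)) x hx
    · intro a ha
      refine arr_lin M v hv f hf (a i0) (base a ha i0) (inj a ha i0) (fun i => a (e i))
        (fun i => base a ha (e i)) (fun i => inj a ha (e i)) _ e he ?_ ?_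
      · intro i
        simp only [if_pos (hemem i)]
      · intro i hi
        simp only [if_neg (hran i hi)]
  · push Not at hc
    refine transfer M n B hB hn hd (fun i => i) (fun i x hx => ⟨x, hx, rfl⟩) ?_
    intro a ha
    refine arr_lin M v hv f hf (a ⟨0, hpos⟩) (base a ha _) (inj a ha _) (fun i => a (e i))
        (fun i => base a ha (e i)) (fun i => inj a ha (e i)) _ e he (fun i => rfl) ?_
    intro i hi
    exact absurd (hc i) (hran i hi)

end Pool.Agent.RB
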