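import Pool.Agent.RB.Defs

set_option autoImplicit false

namespace Pool.Agent.RB

open Equiv

variable {ν : Type} [Fintype ν] [DecidableEq ν]

private theorem mul_det {R : Type} [CommRing R] {k : ℕ} (M : Matrix (Fin k) (Fin k) R) :
    Matrix.det M = ∑ δ : Perm (Fin k), ((Perm.sign δ : ℤ) : R) * ∏ i, M i (δ i) := by
  rw [← Matrix.det_transpose, Matrix.det_apply']
  rfl

/-- [mul, size 3] MULTILINEARITY.  Proof: both sides equal
`∑ a : Fin k → Perm ν, ∑ δ : ν → Perm (Fin k), (∏ s, sign (δ s)) * ∏ s, ∏ i, Y s (a i s) (δ s i)`.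
Left: expand the determinants (`Matrix.det_apply'`, transposed: `det M = ∑ δ, sign δ * ∏ i, M i (δ i)`), product of sums = sum over
`δ : ν → Perm (Fin k)` (`Finset.prod_univ_sum`).  Right: exchange the sums; for fixed `δ`,
`∏ l, Y s (f s l) l = ∏ i, Y s (f s (δ s i)) (δ s i)` (`Equiv.prod_comp (δ s)`), and `f ↦ (fun i s => f s (δ s i))` is a bijection of
`ν → Fin k → ν` with `Fin k → ν → ν`; only the families of bijective maps have a nonzero indicator
(`Equiv.ofBijective`; sum over `Fin k → ν → ν` with the indicator `∏ i, if Bijective (a i)` = sum over `Fin k → Perm ν`). -/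
theorem TT_eq {R : Type} [CommRing R] (k : ℕ) (Y : ν → Matrix ν (Fin k) R) :
    TT k Y = ∑ f : ν → Fin k → ν, (∏ s, ∏ l, Y s (f s l) l) * ((Cf k f : ℤ) : R) := by
  have hL : TT k Y = ∑ a : Fin k → Perm ν, ∑ δ : ν → Perm (Fin k),
      ∏ s, (((Perm.sign (δ s) : ℤ) : R) * ∏ i, Y s (a i s) (δ s i)) := by
    unfold TT
    refine Finset.sum_congr rfl fun a _ => ?_
    simp_rw [mul_det]
    rw [Finset.prod_univ_sum, Fintype.piFinset_univ]
    rfl
  have hR : ∑ f : ν → Fin k → ν, (∏ s, ∏ l, Y s (f s l) l) * ((Cf k f : ℤ) : R) =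
      ∑ δ : ν → Perm (Fin k), ∑ f : ν → Fin k → ν, (∏ s, ∏ l, Y s (f s l) l) *
        ((∏ s, ((Perm.sign (δ s) : ℤ) : R)) *
          ∏ i : Fin k, (if Function.Bijective (fun s => f s (δ s i)) then (1 : R) else 0)) := by
    rw [Finset.sum_comm]
    refine Finset.sum_congr rfl fun f _ => ?_
    rw [← Finset.mul_sum]
    congr 1
    unfold Cf
    push_cast
    refine Finset.sum_congr rfl fun δ _ => ?_
    rfl
  rw [hL, hR, Finset.sum_comm]
  refine Finset.sum_congr rfl fun δ _ => ?_
  let e : (Fin k → ν → ν) ≃ (ν → Fin k → ν) :=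
    { toFun := fun g s l => g ((δ s).symm l) s
      invFun := fun f i s => f s (δ s i)
      left_inv := fun g => by funext i s; simp
      right_inv := fun f => by funext s l; simp }
  rw [← e.sum_comp]
  refine Fintype.sum_of_injective (fun (a : Fin k → Perm ν) (i : Fin k) => ((a i : Perm ν) : ν → ν))
    ?_ _ _ ?_ ?_
  · intro a b hab
    funext i
    have := congrFun hab i
    exact Equiv.coe_fn_injective this
  · intro g hg
    have : ∃ i, ¬ Function.Bijective (g i) := by
      by_contra hcon
      push Not at hcon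
      exact hg ⟨fun i => Equiv.ofBijective (g i) (hcon i), by funext i; rfl⟩
    obtain ⟨i, hi⟩ := this
    have h0 : ∏ i : Fin k, (if Function.Bijective (fun s => (e g) s (δ s i)) then (1 : R) else 0) = 0 := by
      refine Finset.prod_eq_zero (Finset.mem_univ i) ?_
      rw [if_neg]
      have : (fun s => (e g) s (δ s i)) = g i := by
        funext s
        simp [e]
      rw [this]
      exact hi
    rw [h0]
    simp
  · intro a
    rw [Finset.prod_mul_distrib]
    have h1 : ∏ i : Fin k, (if Function.Bijective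
        (fun s => (e (fun i => ((a i : Perm ν) : ν → ν))) s (δ s i)) then (1 : R) else 0) = 1 := by
      refine Finset.prod_eq_one fun i _ => ?_
      rw [if_pos]
      have : (fun s => (e (fun i => ((a i : Perm ν) : ν → ν))) s (δ s i)) = a i := by
        funext s
        simp [e]
      rw [this]
      exact (a i).bijective
    rw [h1, mul_one, mul_comm]
    congr 1
    refine Finset.prod_congr rfl fun s _ => ?_
    rw [← Equiv.prod_comp (δ s) (fun l => Y s ((e (fun i => ((a i : Perm ν) : ν → ν))) s l) l)]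
    refine Finset.prod_congr rfl fun i _ => ?_
    simp [e]

theorem exists_of_TT {R : Type} [CommRing R] {k : ℕ} {Y : ν → Matrix ν (Fin k) R} (h : TT k Y ≠ 0) :
    ∃ f : ν → Fin k → ν, ((Cf k f : ℤ) : R) ≠ 0 := by
  rw [TT_eq] at h
  obtain ⟨f, -, hf⟩ := Finset.exists_ne_zero_of_sum_ne_zero h
  exact ⟨f, fun h0 => hf (by rw [h0, mul_zero])⟩

end Pool.Agent.RB
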