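import Pool.Agent.RB.Phi
import Pool.Agent.RB.Der

set_option autoImplicit false

namespace Pool.Agent.RB

open Equiv

/-- the set of symbols and columns: `p - 1` ordinary ones and `q` pairs -/
abbrev Sy (p q : ℕ) : Type := Fin (p - 1) ⊕ (Fin q × Bool)

/-- the matrices: `Y` for an ordinary symbol, the indicator of the enumeration `g b` for the two symbols of the pair `b` -/
def Ysp {p q k : ℕ} (g : Fin q → Fin k → Sy p q) (Y : Matrix (Sy p q) (Fin k) (ZMod p)) :
    Sy p q → Matrix (Sy p q) (Fin k) (ZMod p)
  | Sum.inl _ => Y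
  | Sum.inr x => Matrix.of fun j l => if g x.1 l = j then 1 else 0

private theorem spl_sum_perm {α : Type} [Fintype α] [DecidableEq α] {k : ℕ} {R : Type} [CommRing R]
    (F : (Fin k → α → α) → R) :
    open Classical in
    ∑ a : Fin k → Perm α, F (fun i => a i) =
      ∑ A : Fin k → α → α, if ∀ i, Function.Injective (A i) then F A else 0 := by
  classical
  rw [← Finset.sum_filter]
  refine Finset.sum_bij (fun a _ => fun i => (a i : α → α)) ?_ ?_ ?_ ?_
  · intro a _
    exact Finset.mem_filter.mpr ⟨Finset.mem_univ _, fun i => (a i).injective⟩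
  · intro a _ b _ h
    funext i
    exact Equiv.ext (fun x => congr_fun (congr_fun h i) x)
  · intro A hA
    exact ⟨fun i => Equiv.ofBijective (A i)
      (Finite.injective_iff_bijective.mp ((Finset.mem_filter.mp hA).2 i)), Finset.mem_univ _, rfl⟩
  · intro a _
    rfl

private def spl_equiv (p q k : ℕ) : (Fin k → Sy p q → Sy p q) ≃
    (Fin k → (Fin q × Bool) → Sy p q) × (Fin (p - 1) → Fin k → Sy p q) where
  toFun A := (fun i x => A i (Sum.inr x), fun s i => A i (Sum.inl s))
  invFun B := fun i => Sum.elim (fun s => B.2 s i) (B.1 i)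
  left_inv A := by
    funext i s
    cases s <;> rfl
  right_inv B := rfl

private theorem spl_cond {p q k : ℕ} (A : Fin k → Sy p q → Sy p q) :
    (∀ i, Function.Injective (A i)) ↔ ((∀ i, Function.Injective (fun x : Fin q × Bool => A i (Sum.inr x))) ∧
      ∀ i, Function.Injective (fun s : Fin (p - 1) => A i (Sum.inl s)) ∧
        ∀ s : Fin (p - 1), ∀ x : Fin q × Bool, A i (Sum.inr x) ≠ A i (Sum.inl s)) := by
  constructor
  · intro h
    refine ⟨fun i => (h i).comp Sum.inr_injective, fun i => ⟨(h i).comp Sum.inl_injective, ?_⟩⟩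
    intro s x hx
    exact Sum.inr_ne_inl (h i hx)
  · rintro ⟨h1, h2⟩ i
    have h3 : A i = Sum.elim (fun s : Fin (p - 1) => A i (Sum.inl s)) (fun x : Fin q × Bool => A i (Sum.inr x)) := by
      funext s
      cases s <;> rfl
    rw [h3]
    exact (h2 i).1.sumElim (h1 i) (fun s x hx => (h2 i).2 s x hx.symm)

/-- [spl, size 3] split the permutations `a i` into their values on the pairs (`β i`) and on the ordinary symbols (`v`).
A pair (`β i` injective, `s ↦ v s i` injective into the complement of the image of `β i`) is the same as a permutation `a i`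
(`Sum.elim`, injective on a finite set). -/
theorem TT_split {p q k : ℕ} (g : Fin q → Fin k → Sy p q) (Y : Matrix (Sy p q) (Fin k) (ZMod p)) :
    open Classical in
    TT k (Ysp g Y) = ∑ β : Fin k → (Fin q × Bool) → Sy p q,
      if ∀ i, Function.Injective (β i) then
        (∏ x : Fin q × Bool, Matrix.det (Matrix.of fun (i l : Fin k) => if g x.1 l = β i x then (1 : ZMod p) else 0)) *
          PhiR p k Y (fun i => (Finset.univ.image (β i))ᶜ) else 0 := by
  classical
  let D : (Fin k → (Fin q × Bool) → Sy p q) → ZMod p := fun β =>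
    ∏ x : Fin q × Bool, Matrix.det (Matrix.of fun (i l : Fin k) => if g x.1 l = β i x then (1 : ZMod p) else 0)
  let P : (Fin (p - 1) → Fin k → Sy p q) → ZMod p := fun v =>
    ∏ s, Matrix.det (Matrix.of fun (i l : Fin k) => Y (v s i) l)
  let F : (Fin k → Sy p q → Sy p q) → ZMod p := fun A =>
    D (fun i x => A i (Sum.inr x)) * P (fun s i => A i (Sum.inl s))
  have h1 : TT k (Ysp g Y) = ∑ a : Fin k → Perm (Sy p q), F (fun i => a i) := by
    unfold TT
    refine Finset.sum_congr rfl fun a _ => ?_
    rw [Fintype.prod_sum_type, mul_comm]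
    rfl
  rw [h1, spl_sum_perm F]
  have h2 : (∑ A : Fin k → Sy p q → Sy p q, if ∀ i, Function.Injective (A i) then F A else 0) =
      ∑ B : (Fin k → (Fin q × Bool) → Sy p q) × (Fin (p - 1) → Fin k → Sy p q),
        if ((∀ i, Function.Injective (B.1 i)) ∧ ∀ i, Function.Injective (fun s => B.2 s i) ∧
          ∀ s x, B.1 i x ≠ B.2 s i) then D B.1 * P B.2 else 0 := by
    refine Fintype.sum_equiv (spl_equiv p q k) _ _ ?_
    intro A
    exact if_congr (spl_cond A) rfl rfl
  have h3 : (∑ A : Fin k → Sy p q → Sy p q, if ∀ i, Function.Injective (A i) then F A else 0) =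
      ∑ β : Fin k → (Fin q × Bool) → Sy p q, ∑ v : Fin (p - 1) → Fin k → Sy p q,
        if ((∀ i, Function.Injective (β i)) ∧ ∀ i, Function.Injective (fun s => v s i) ∧
          ∀ s x, β i x ≠ v s i) then D β * P v else 0 := by
    rw [h2, Fintype.sum_prod_type]
  refine h3.trans (Finset.sum_congr rfl fun β _ => ?_)
  by_cases hβ : ∀ i, Function.Injective (β i)
  · rw [if_pos hβ]
    unfold PhiR
    rw [Finset.mul_sum]
    refine Finset.sum_congr rfl fun v _ => ?_
    have hc : (∀ i, Function.Injective (fun s => v s i) ∧ ∀ s, v s i ∈ (Finset.univ.image (β i))ᶜ) ↔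
        (∀ i, Function.Injective (fun s => v s i) ∧ ∀ s x, β i x ≠ v s i) := by
      simp only [Finset.mem_compl, Finset.mem_image, Finset.mem_univ, true_and, not_exists, ne_eq]
    by_cases hv : ∀ i, Function.Injective (fun s => v s i) ∧ ∀ s x, β i x ≠ v s i
    · rw [if_pos ⟨hβ, hv⟩, if_pos (hc.mpr hv)]
    · rw [if_neg (fun h => hv h.2), if_neg (fun h => hv (hc.mp h)), mul_zero]
  · rw [if_neg hβ]
    exact Finset.sum_eq_zero fun v _ => if_neg (fun h => hβ h.1)

/-- [ind, size 1] an indicator determinant: nonzero only if `y` is a rearrangement of the enumeration `g`. -/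
theorem det_ind_ne {p k : ℕ} [Fact p.Prime] {ν : Type} [DecidableEq ν] (g y : Fin k → ν) (hg : Function.Injective g)
    (h : Matrix.det (Matrix.of fun (i l : Fin k) => if g l = y i then (1 : ZMod p) else 0) ≠ 0) :
    ∃ π : Perm (Fin k), ∀ i, y i = g (π i) := by
  have h1 : ∀ i, ∃ l, g l = y i := by
    intro i
    by_contra h2
    push Not at h2
    refine h (Matrix.det_eq_zero_of_row_eq_zero i fun l => ?_)
    rw [Matrix.of_apply, if_neg (h2 l)]
  choose π hπ using h1
  have h2 : Function.Injective π := by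
    intro i i' hi
    by_contra hne
    refine h (Matrix.det_zero_of_row_eq hne ?_)
    funext l
    rw [Matrix.of_apply, Matrix.of_apply, ← hπ i, ← hπ i', hi]
  refine ⟨Equiv.ofBijective π (Finite.injective_iff_bijective.1 h2), fun i => ?_⟩
  exact (hπ i).symm

/-- [ind, size 1] its value is the sign. -/
theorem det_ind_eq {p k : ℕ} [Fact p.Prime] {ν : Type} [DecidableEq ν] (g y : Fin k → ν) (hg : Function.Injective g)
    (π : Perm (Fin k)) (h : ∀ i, y i = g (π i)) :
    Matrix.det (Matrix.of fun (i l : Fin k) => if g l = y i then (1 : ZMod p) else 0) = ((Perm.sign π : ℤ) : ZMod p) := by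
  have h1 : Matrix.of (fun (i l : Fin k) => if g l = y i then (1 : ZMod p) else 0) =
      (1 : Matrix (Fin k) (Fin k) (ZMod p)).submatrix π id := by
    ext i l
    rw [Matrix.of_apply, Matrix.submatrix_apply, id_eq, Matrix.one_apply, h i]
    by_cases h2 : π i = l
    · rw [if_pos h2, if_pos (by rw [h2])]
    · rw [if_neg h2, if_neg fun h3 => h2 (hg h3).symm]
  rw [h1, Matrix.det_permute, Matrix.det_one, mul_one]

/-- [prc, size 2] every column of a pair `b` is used in exactly two rows by the symbols of the pair (once by `(b, false)` and once by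
`(b, true)`, in different rows as `β i` is injective) and by no other special symbol; the columns outside are never used. -/
theorem prod_compl {p q k : ℕ} (g : Fin q → Fin k → Sy p q) (hg : Function.Injective fun y : Fin q × Fin k => g y.1 y.2)
    (β : Fin k → (Fin q × Bool) → Sy p q) (hβ : ∀ i, Function.Injective (β i))
    (π : Fin q × Bool → Perm (Fin k)) (hπ : ∀ i x, β i x = g x.1 (π x i)) (u : Sy p q → ZMod p) :
    open Classical in
    ∏ i : Fin k, ∏ j ∈ (Finset.univ.image (β i))ᶜ, u j =
      ∏ j, u j ^ (if ∃ b l, g b l = j then k - 2 else k) := by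
  classical
  have h1 : ∀ i : Fin k, ∏ j ∈ (Finset.univ.image (β i))ᶜ, u j =
      ∏ j, if j ∉ Finset.univ.image (β i) then u j else 1 := by
    intro i
    rw [← Finset.prod_filter]
    refine Finset.prod_congr ?_ fun _ _ => rfl
    ext j
    rw [Finset.mem_compl, Finset.mem_filter]
    exact ⟨fun h => ⟨Finset.mem_univ _, h⟩, fun h => h.2⟩
  rw [Finset.prod_congr rfl fun i _ => h1 i, Finset.prod_comm]
  refine Finset.prod_congr rfl fun j _ => ?_
  rw [Finset.prod_ite, Finset.prod_const, Finset.prod_const_one, mul_one]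
  congr 1
  have hmem : ∀ i, j ∈ Finset.univ.image (β i) ↔ ∃ x : Fin q × Bool, g x.1 (π x i) = j := by
    intro i
    rw [Finset.mem_image]
    constructor
    · rintro ⟨x, -, hx⟩
      exact ⟨x, by rw [← hπ, hx]⟩
    · rintro ⟨x, hx⟩
      exact ⟨x, Finset.mem_univ _, by rw [hπ, hx]⟩
  by_cases hj : ∃ b l, g b l = j
  · rw [if_pos hj]
    obtain ⟨b, l, rfl⟩ := hj
    have h2 : (Finset.univ.filter fun i => g b l ∉ Finset.univ.image (β i)) =
        ({(π (b, false)).symm l, (π (b, true)).symm l} : Finset (Fin k))ᶜ := by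
      ext i
      rw [Finset.mem_filter, Finset.mem_compl, hmem i, Finset.mem_insert, Finset.mem_singleton]
      constructor
      · rintro ⟨-, h3⟩ h4
        apply h3
        rcases h4 with h4 | h4
        · exact ⟨(b, false), by rw [h4, Equiv.apply_symm_apply]⟩
        · exact ⟨(b, true), by rw [h4, Equiv.apply_symm_apply]⟩
      · intro h3
        refine ⟨Finset.mem_univ _, ?_⟩
        rintro ⟨⟨b', c⟩, hx⟩
        have h4 := hg (a₁ := (b', π (b', c) i)) (a₂ := (b, l)) hx
        rw [Prod.mk.injEq] at h4
        obtain ⟨rfl, h5⟩ := h4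
        apply h3
        cases c
        · left
          rw [← h5, Equiv.symm_apply_apply]
        · right
          rw [← h5, Equiv.symm_apply_apply]
    have h3 : (π (b, false)).symm l ≠ (π (b, true)).symm l := by
      intro h4
      have h5 : β ((π (b, false)).symm l) (b, false) = β ((π (b, false)).symm l) (b, true) := by
        rw [hπ, hπ]
        show g b (π (b, false) ((π (b, false)).symm l)) = g b (π (b, true) ((π (b, false)).symm l))
        rw [Equiv.apply_symm_apply, h4, Equiv.apply_symm_apply]
      have h6 := hβ _ h5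
      rw [Prod.mk.injEq] at h6
      exact Bool.false_ne_true h6.2
    rw [h2, Finset.card_compl, Finset.card_pair h3, Fintype.card_fin]
  · rw [if_neg hj]
    have h2 : (Finset.univ.filter fun i => j ∉ Finset.univ.image (β i)) = Finset.univ := by
      rw [Finset.filter_eq_self]
      intro i _ h3
      obtain ⟨x, hx⟩ := (hmem i).1 h3
      exact hj ⟨x.1, _, hx⟩
    rw [h2, Finset.card_univ, Fintype.card_fin]

/-- [spe, size 3] the sum over the special placements.  Only `β` with `β i x = g x.1 (π x i)` (`det_ind_ne`) contribute, `β ↔ π` is a bijection,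
the value is `∏ x, sign (π x)` (`det_ind_eq`), and `β i` is injective iff `π (b, false) i ≠ π (b, true) i` for all `b`.  So the sum is
`∏ b` of `pair_sum` (`Fin q × Bool → Perm (Fin k)` = `Fin q → Perm (Fin k) × Perm (Fin k)`, `Finset.prod_univ_sum`). -/
theorem spe_sum {p q k : ℕ} [Fact p.Prime] (hk : 1 ≤ k) (g : Fin q → Fin k → Sy p q)
    (hg : Function.Injective fun y : Fin q × Fin k => g y.1 y.2) :
    open Classical in
    (∑ β : Fin k → (Fin q × Bool) → Sy p q,
      if ∀ i, Function.Injective (β i) then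
        ∏ x : Fin q × Bool, Matrix.det (Matrix.of fun (i l : Fin k) => if g x.1 l = β i x then (1 : ZMod p) else 0)
      else 0) = ((k.factorial : ZMod p) * ((-1) ^ (k - 1) * ((k : ZMod p) - 1))) ^ q := by
  classical
  obtain ⟨Φ, hΦ⟩ : ∃ Φ : ((Fin q × Bool) → Perm (Fin k)) → (Fin k → (Fin q × Bool) → Sy p q),
      ∀ π i x, Φ π i x = g x.1 (π x i) := ⟨fun π i x => g x.1 (π x i), fun _ _ _ => rfl⟩
  have hgb : ∀ b, Function.Injective (g b) := by
    intro b l l' h
    have h1 := hg (a₁ := (b, l)) (a₂ := (b, l')) h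
    rw [Prod.mk.injEq] at h1
    exact h1.2
  have hΦi : Function.Injective Φ := by
    intro π π' h
    funext x
    ext i
    have h1 := congrFun (congrFun h i) x
    rw [hΦ, hΦ] at h1
    rw [hgb x.1 h1]
  have h1 : ∀ π : (Fin q × Bool) → Perm (Fin k),
      (∀ i, Function.Injective (Φ π i)) ↔ ∀ b i, π (b, false) i ≠ π (b, true) i := by
    intro π
    constructor
    · intro h b i h2
      have h3 : Φ π i (b, false) = Φ π i (b, true) := by
        rw [hΦ, hΦ, h2]
      have h4 := h i h3
      rw [Prod.mk.injEq] at h4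
      exact Bool.false_ne_true h4.2
    · rintro h i ⟨b, c⟩ ⟨b', c'⟩ h2
      rw [hΦ, hΦ] at h2
      have h3 := hg (a₁ := (b, π (b, c) i)) (a₂ := (b', π (b', c') i)) h2
      rw [Prod.mk.injEq] at h3
      obtain ⟨rfl, h4⟩ := h3
      cases c <;> cases c'
      · rfl
      · exact absurd h4 (h b i)
      · exact absurd h4.symm (h b i)
      · rfl
  rw [← Finset.sum_of_injOn (s := Finset.univ) (f := fun π : (Fin q × Bool) → Perm (Fin k) =>
      ∏ b : Fin q, ((if ∀ i, π (b, false) i ≠ π (b, true) i then
        (Perm.sign (π (b, false)) : ℤ) * (Perm.sign (π (b, true)) : ℤ) else 0 : ℤ) : ZMod p))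
      Φ (fun x _ y _ h => hΦi h) (fun x _ => Finset.mem_coe.2 (Finset.mem_univ _)) ?_ ?_]
  · have h2 : ∑ π : (Fin q × Bool) → Perm (Fin k),
        ∏ b : Fin q, ((if ∀ i, π (b, false) i ≠ π (b, true) i then
          (Perm.sign (π (b, false)) : ℤ) * (Perm.sign (π (b, true)) : ℤ) else 0 : ℤ) : ZMod p) =
        ∑ π : Fin q → Bool → Perm (Fin k),
        ∏ b : Fin q, ((if ∀ i, π b false i ≠ π b true i then
          (Perm.sign (π b false) : ℤ) * (Perm.sign (π b true) : ℤ) else 0 : ℤ) : ZMod p) :=
      Fintype.sum_equiv (Equiv.curry (Fin q) Bool (Perm (Fin k))) _ _ fun π => rfl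
    have h3 : ∑ τ : Bool → Perm (Fin k), ((if ∀ i, τ false i ≠ τ true i then
          (Perm.sign (τ false) : ℤ) * (Perm.sign (τ true) : ℤ) else 0 : ℤ) : ZMod p) =
        (k.factorial : ZMod p) * ((-1) ^ (k - 1) * ((k : ZMod p) - 1)) := by
      have h4 := congrArg (Int.cast : ℤ → ZMod p) (pair_sum k hk)
      push_cast at h4
      rw [← h4, ← Fintype.sum_prod_type']
      refine Fintype.sum_equiv (Equiv.boolArrowEquivProd (Perm (Fin k))) _ _ fun τ => ?_
      push_cast
      rfl
    rw [h2, ← h3, ← Finset.card_fin q, ← Finset.prod_const, Finset.prod_univ_sum,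
      Fintype.piFinset_univ]
    rw [Finset.card_fin]
  · intro β _ hβ
    by_contra h2
    have h3 : ∀ i, Function.Injective (β i) := by
      by_contra h4
      exact h2 (if_neg h4)
    rw [if_pos h3] at h2
    have h4 : ∀ x : Fin q × Bool, ∃ π : Perm (Fin k), ∀ i, β i x = g x.1 (π i) := by
      intro x
      refine det_ind_ne (p := p) (g x.1) (fun i => β i x) (hgb x.1) fun h5 => h2 ?_
      exact Finset.prod_eq_zero (Finset.mem_univ x) h5
    choose π hπ using h4
    refine hβ ⟨π, Finset.mem_coe.2 (Finset.mem_univ _), ?_⟩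
    funext i x
    rw [hΦ, hπ]
  · intro π _
    by_cases h2 : ∀ b i, π (b, false) i ≠ π (b, true) i
    · rw [if_pos ((h1 π).2 h2), Fintype.prod_prod_type]
      refine Finset.prod_congr rfl fun b _ => ?_
      rw [Fintype.prod_bool, if_pos (h2 b)]
      rw [det_ind_eq (g b) (fun i => Φ π i (b, true)) (hgb b) (π (b, true)) (fun i => hΦ π i (b, true)),
        det_ind_eq (g b) (fun i => Φ π i (b, false)) (hgb b) (π (b, false))
          (fun i => hΦ π i (b, false))]
      push_cast
      ring
    · rw [if_neg fun h3 => h2 ((h1 π).1 h3)]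
      push Not at h2
      obtain ⟨b, i, hb⟩ := h2
      refine Finset.prod_eq_zero (Finset.mem_univ b) ?_
      rw [if_neg fun h3 => h3 i hb, Int.cast_zero]

/-- [tm, size 2] THE FORMULA.  `TT_split`; in every nonzero term `phi_eq` (the complement of the image of `β i` has `p - 1` elements) and
`prod_compl` give the same factor; then `spe_sum`. -/
theorem TT_main {p q k : ℕ} [Fact p.Prime] (hp : p ≠ 2) (hk : 1 ≤ k) (g : Fin q → Fin k → Sy p q)
    (hg : Function.Injective fun y : Fin q × Fin k => g y.1 y.2) (Y : Matrix (Sy p q) (Fin k) (ZMod p)) :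
    open Classical in
    TT k (Ysp g Y) = ((k.factorial : ZMod p) * ((-1) ^ (k - 1) * ((k : ZMod p) - 1))) ^ q *
      ∑ t : Fin k → ZMod p, ∏ j, (∑ l, Y j l * t l) ^ (if ∃ b l, g b l = j then k - 2 else k) := by
  classical
  have hgb : ∀ b, Function.Injective (g b) := by
    intro b l l' h
    have h1 := hg (a₁ := (b, l)) (a₂ := (b, l')) h
    rw [Prod.mk.injEq] at h1
    exact h1.2
  rw [TT_split g Y, ← spe_sum hk g hg, Finset.sum_mul]
  refine Finset.sum_congr rfl fun β _ => ?_
  by_cases h1 : ∀ i, Function.Injective (β i)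
  · rw [if_pos h1, if_pos h1]
    by_cases h2 : ∏ x : Fin q × Bool,
        Matrix.det (Matrix.of fun (i l : Fin k) => if g x.1 l = β i x then (1 : ZMod p) else 0) = 0
    · rw [h2, zero_mul, zero_mul]
    · congr 1
      have h4 : ∀ x : Fin q × Bool, ∃ π : Perm (Fin k), ∀ i, β i x = g x.1 (π i) := by
        intro x
        refine det_ind_ne (p := p) (g x.1) (fun i => β i x) (hgb x.1) fun h5 => h2 ?_
        exact Finset.prod_eq_zero (Finset.mem_univ x) h5
      choose π hπ using h4
      rw [phi_eq p hp k Y _ ?_]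
      · refine Finset.sum_congr rfl fun t _ => ?_
        exact prod_compl g hg β h1 π (fun i x => hπ x i) fun j => ∑ l, Y j l * t l
      · intro i
        rw [Finset.card_compl, Finset.card_image_of_injective _ (h1 i), Finset.card_univ]
        have h5 : Fintype.card (Sy p q) = (p - 1) + q * 2 := by
          rw [Fintype.card_sum, Fintype.card_fin, Fintype.card_prod, Fintype.card_fin,
            Fintype.card_bool]
        rw [h5, Fintype.card_prod, Fintype.card_fin, Fintype.card_bool, Nat.add_sub_cancel]
  · rw [if_neg h1, if_neg h1, zero_mul]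

end Pool.Agent.RB
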