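import Pool.Agent.RB.Mul
import Pool.Agent.RB.Blk
import Pool.Agent.RB.Spe
import Pool.Agent.RB.Cho

set_option autoImplicit false

namespace Pool.Agent.RB

open Equiv

/-- [nb, size 2] ONE BLOCK.  `q * k ≤ p - 1 + 2 q = card (Sy p q)`, so there is an injective `Fin q × Fin k → Sy p q`, curried `g`.  `m j = k - 2` on its
image and `k` outside: `m j ≤ k ≤ p - 1`, `∑ m j = k (p - 1 + 2 q) - 2 q k = k (p - 1)`; `Y` from `exists_Y`; `TT_main`: `k! ≠ 0`, `k - 1 ≠ 0` mod `p`.
`exists_of_TT`, `OkP_of`. -/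
theorem OkP_block {p : ℕ} [Fact p.Prime] (hp : p ≠ 2) (k q : ℕ) (hk : 2 ≤ k) (hkp : k < p)
    (hq : q * (k - 2) ≤ p - 1) : OkP p k (p - 1 + 2 * q) := by
  classical
  have hcard : Fintype.card (Sy p q) = p - 1 + 2 * q := by
    simp [Sy, Fintype.card_sum, Fintype.card_prod, mul_comm]
  obtain ⟨g'⟩ : Nonempty ((Fin q × Fin k) ↪ Sy p q) := by
    apply Function.Embedding.nonempty_of_card_le
    rw [hcard, Fintype.card_prod, Fintype.card_fin, Fintype.card_fin]
    obtain ⟨r, rfl⟩ : ∃ r, k = r + 2 := ⟨k - 2, by omega⟩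
    rw [show r + 2 - 2 = r by omega] at hq
    nlinarith
  set g : Fin q → Fin k → Sy p q := fun b l => g' (b, l) with hgdef
  have hg : Function.Injective fun y : Fin q × Fin k => g y.1 y.2 := g'.injective
  have hP : (Finset.univ.filter fun j : Sy p q => ∃ b l, g b l = j).card = q * k := by
    have : (Finset.univ.filter fun j : Sy p q => ∃ b l, g b l = j) = Finset.univ.image (fun y : Fin q × Fin k => g y.1 y.2) := by
      ext j
      simp only [Finset.mem_filter, Finset.mem_univ, true_and, Finset.mem_image, Prod.exists]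
    rw [this, Finset.card_image_of_injective _ hg, Finset.card_univ, Fintype.card_prod, Fintype.card_fin, Fintype.card_fin]
  have hsum : ∑ j : Sy p q, (if ∃ b l, g b l = j then k - 2 else k) = k * (p - 1) := by
    have h1 := Finset.card_filter_add_card_filter_not (s := (Finset.univ : Finset (Sy p q))) (fun j => ∃ b l, g b l = j)
    rw [hP, Finset.card_univ, hcard] at h1
    rw [Finset.sum_ite, Finset.sum_const, Finset.sum_const, hP, smul_eq_mul, smul_eq_mul]
    obtain ⟨N, hN⟩ : ∃ N, (Finset.univ.filter fun j : Sy p q => ¬ ∃ b l, g b l = j).card = N := ⟨_, rfl⟩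
    rw [hN] at h1 ⊢
    obtain ⟨r, rfl⟩ : ∃ r, k = r + 2 := ⟨k - 2, by omega⟩
    rw [show r + 2 - 2 = r by omega]
    obtain ⟨P, hP'⟩ : ∃ P, p - 1 = P := ⟨_, rfl⟩
    rw [hP'] at h1 ⊢
    nlinarith
  obtain ⟨Y, hY⟩ := exists_Y p k (fun j : Sy p q => if ∃ b l, g b l = j then k - 2 else k)
    (fun j => by split_ifs <;> omega) hsum
  have hT : TT k (Ysp g Y) ≠ 0 := by
    rw [TT_main hp (by omega) g hg Y]
    refine mul_ne_zero (pow_ne_zero _ (mul_ne_zero ?_ (mul_ne_zero ?_ ?_))) ?_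
    · intro h0
      rw [CharP.cast_eq_zero_iff (ZMod p) p, (Fact.out : p.Prime).dvd_factorial] at h0
      omega
    · exact pow_ne_zero _ (neg_ne_zero.mpr one_ne_zero)
    · intro h0
      have h1 : ((k - 1 : ℕ) : ZMod p) = 0 := by
        rw [Nat.cast_sub (by omega)]; simpa using h0
      rw [CharP.cast_eq_zero_iff (ZMod p) p] at h1
      exact absurd (Nat.le_of_dvd (by omega) h1) (by omega)
    · convert hY
  obtain ⟨f, hf⟩ := exists_of_TT hT
  exact OkP_of hcard f hf

theorem OkP_zero {p k : ℕ} [Fact p.Prime] : OkP p k 0 :=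
  ⟨fun s _ => s, by rw [Cf_zero]; simp⟩

theorem OkP_one {p n : ℕ} [Fact p.Prime] : OkP p 1 n :=
  ⟨fun s _ => s, by rw [Cf_one]; simp⟩

/-- sizes of the blocks -/
def sz (L : List (ℕ × ℕ)) : ℕ := (L.map fun x => x.1 - 1 + 2 * x.2).sum

/-- the admissible lists -/
def Adm (k : ℕ) (L : List (ℕ × ℕ)) : Prop :=
  ∀ x ∈ L, x.1.Prime ∧ x.1 ≠ 2 ∧ k < x.1 ∧ x.2 * (k - 2) ≤ x.1 - 1

/-- [nl, size 1] lists of blocks, characteristic `p`. -/
theorem OkP_list {p k : ℕ} [Fact p.Prime] (hk : 1 ≤ k) (L : List (ℕ × ℕ)) (hL : Adm k L)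
    (hp : ∀ x ∈ L, x.1 = p) : OkP p k (sz L) := by
  induction L with
  | nil => exact OkP_zero
  | cons x L ih =>
    have hx := hL x (by simp)
    have hxp : x.1 = p := hp x (by simp)
    have h2 := ih (fun y hy => hL y (by simp [hy])) (fun y hy => hp y (by simp [hy]))
    have e : sz (x :: L) = (p - 1 + 2 * x.2) + sz L := by
      simp only [sz, List.map_cons, List.sum_cons, hxp]
    rw [e]
    refine OkP_add ?_ h2
    rcases Nat.lt_or_ge k 2 with h | h
    · obtain rfl : k = 1 := by omega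
      exact OkP_one
    · exact OkP_block (by rw [← hxp]; exact hx.2.1) k x.2 h (by rw [← hxp]; exact hx.2.2.1) (by rw [← hxp]; exact hx.2.2.2)

/-- [nl, size 1] lists of blocks, characteristic zero. -/
theorem Ok_list {k : ℕ} (hk : 1 ≤ k) (L : List (ℕ × ℕ)) (hL : Adm k L) : Ok k (sz L) := by
  induction L with
  | nil =>
    refine ⟨fun s _ => s, ?_⟩
    have h := Cf_zero (k := k) (fun s _ => s)
    show Cf k (fun (s : Fin 0) _ => s) ≠ 0
    rw [h]
    exact one_ne_zero
  | cons x L ih =>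
    have hx := hL x (by simp)
    have h2 := ih (fun y hy => hL y (by simp [hy]))
    have e : sz (x :: L) = (x.1 - 1 + 2 * x.2) + sz L := by
      simp only [sz, List.map_cons, List.sum_cons]
    rw [e]
    refine Ok_add ?_ h2
    have : Fact x.1.Prime := ⟨hx.1⟩
    apply Ok_of_OkP (p := x.1)
    rcases Nat.lt_or_ge k 2 with h | h
    · obtain rfl : k = 1 := by omega
      exact OkP_one
    · exact OkP_block hx.2.1 k x.2 h hx.2.2.1 hx.2.2.2

/-- Bertrand.  `k ≤ 2`: `p = 3`, `n / 2` blocks `(3, 0)`.  `k ≥ 3`: a prime `k < p ≤ 2 k - 1` (`Nat.exists_prime_lt_and_le_two_mul`),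
`n = c (p - 1) + 2 q'`, `2 q' < p - 1`, and `q' ≤ c` since `n ≥ 2 (k - 1) (k - 2)`:
`c - q'` blocks `(p, 0)` and `q'` blocks `(p, 1)`. -/
theorem exists_list {n k : ℕ} (hn : Even n) (h : 2 * ((k - 1) * (k - 2)) ≤ n) :
    ∃ L : List (ℕ × ℕ), Adm k L ∧ sz L = n := by
  obtain ⟨m, hm⟩ := hn
  by_cases hk2 : k ≤ 2
  · refine ⟨List.replicate m (3, 0), ?_, ?_⟩
    · intro x hx
      rw [List.mem_replicate] at hx
      obtain ⟨-, rfl⟩ := hx
      exact ⟨Nat.prime_three, by norm_num, by omega, by simp⟩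
    · simp only [sz, List.map_replicate, List.sum_replicate, smul_eq_mul]
      omega
  · push Not at hk2
    obtain ⟨p, hp, hkp, hp2⟩ := Nat.exists_prime_lt_and_le_two_mul k (by omega)
    have hpne : p ≠ 2 := by omega
    obtain ⟨d, hd⟩ := hp.odd_of_ne_two hpne
    have hd0 : 0 < d := by omega
    have hdk : d + 1 ≤ k := by omega
    obtain ⟨r, rfl⟩ : ∃ r, k = r + 2 := ⟨k - 2, by omega⟩
    obtain ⟨d', rfl⟩ : ∃ d', d = d' + 1 := ⟨d - 1, by omega⟩
    have hc : d' ≤ m / (d' + 1) := by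
      rw [Nat.le_div_iff_mul_le hd0]
      have h1 : (r + 2 - 1) * (r + 2 - 2) ≤ m := by omega
      have h2 : d' * (d' + 1) ≤ (r + 2 - 1) * (r + 2 - 2) := by
        rw [mul_comm]
        exact Nat.mul_le_mul (by omega) (by omega)
      omega
    have hq : m % (d' + 1) < d' + 1 := Nat.mod_lt _ hd0
    have hmd := Nat.div_add_mod m (d' + 1)
    obtain ⟨c, hc'⟩ : ∃ c, m / (d' + 1) = c := ⟨_, rfl⟩
    obtain ⟨q, hq'⟩ : ∃ q, m % (d' + 1) = q := ⟨_, rfl⟩
    rw [hc'] at hc hmd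
    rw [hq'] at hq hmd
    obtain ⟨s, hs⟩ : ∃ s, c = q + s := ⟨c - q, by omega⟩
    refine ⟨List.replicate s (p, 0) ++ List.replicate q (p, 1), ?_, ?_⟩
    · intro x hx
      rw [List.mem_append, List.mem_replicate, List.mem_replicate] at hx
      rcases hx with ⟨-, rfl⟩ | ⟨-, rfl⟩
      · exact ⟨hp, hpne, hkp, by simp⟩
      · refine ⟨hp, hpne, hkp, ?_⟩
        show 1 * (r + 2 - 2) ≤ p - 1
        omega
    · simp only [sz, List.map_append, List.sum_append, List.map_replicate, List.sum_replicate, smul_eq_mul]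
      have : p - 1 = 2 * (d' + 1) := by omega
      rw [this, hm, ← hmd, hs]
      ring

end Pool.Agent.RB
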