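import Pool.Agent.RB.Det

set_option autoImplicit false

namespace Pool.Agent.RB

open Equiv

variable {ν : Type} [Fintype ν] [DecidableEq ν]

/-- sum over all arrays `v` (symbols `s : Fin (p-1)`, rows `i`) whose row `i` is a bijection onto `R i` -/
noncomputable def PhiR (p k : ℕ) (Y : Matrix ν (Fin k) (ZMod p)) (R : Fin k → Finset ν) : ZMod p :=
  open Classical in
  ∑ v : Fin (p - 1) → Fin k → ν,
    if ∀ i, Function.Injective (fun s => v s i) ∧ ∀ s, v s i ∈ R i then
      ∏ s, Matrix.det (Matrix.of fun (i l : Fin k) => Y (v s i) l) else 0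


private theorem ph_fac {ι M : Type} [Fintype ι] [DecidableEq ι] [CommSemiring M] {κ : ι → Type}
    [∀ i, Fintype (κ i)] (f : (i : ι) → κ i → M) :
    ∏ i, ∑ x : κ i, f i x = ∑ z : (i : ι) → κ i, ∏ i, f i (z i) := by
  rw [Finset.prod_univ_sum, Fintype.piFinset_univ]

/-- [ph1, size 2] extraction of the squarefree part in one row.  `R` has `p - 1` elements, `c : Fin (p-1) → R`:
`∏ s, z (c s) = ∏ j, z j ^ e j`, `e j = card (c⁻¹ j) ≤ p - 1`; the sum over `z` factorises, `sum_pow_shift`; all `e j = 1` iff `c` is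
injective (`∑ e j = p - 1 = card R`), and `(-1)^(p-1) = 1` since `p` is odd. -/
theorem row_sum (p : ℕ) [Fact p.Prime] (hp : p ≠ 2) (R : Finset ν) (hR : R.card = p - 1)
    (c : Fin (p - 1) → {j // j ∈ R}) :
    open Classical in
    ∑ z : {j // j ∈ R} → ZMod p, (∏ j, z j ^ (p - 2)) * ∏ s, z (c s) =
      if Function.Injective c then 1 else 0 := by

  classical
  obtain ⟨e, he⟩ : ∃ e : {j // j ∈ R} → ℕ, ∀ j, e j = (Finset.univ.filter fun s => c s = j).card :=
    ⟨_, fun _ => rfl⟩
  have hele : ∀ j, e j ≤ p - 1 := by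
    intro j
    rw [he]
    refine (Finset.card_le_univ _).trans ?_
    rw [Fintype.card_fin]
  have hprod : ∀ z : {j // j ∈ R} → ZMod p, ∏ s, z (c s) = ∏ j, z j ^ e j := by
    intro z
    rw [← Finset.prod_fiberwise' Finset.univ c z]
    refine Finset.prod_congr rfl fun j _ => ?_
    rw [Finset.prod_const, he]
  have h1 : ∑ z : {j // j ∈ R} → ZMod p, (∏ j, z j ^ (p - 2)) * ∏ s, z (c s) =
      ∏ j, ∑ x : ZMod p, x ^ (p - 2 + e j) := by
    rw [ph_fac (fun j x => x ^ (p - 2 + e j))]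
    refine Finset.sum_congr rfl fun z _ => ?_
    rw [hprod, ← Finset.prod_mul_distrib]
    exact Finset.prod_congr rfl fun j _ => (pow_add _ _ _).symm
  rw [h1, Finset.prod_congr rfl fun j _ => sum_pow_shift p hp (e j) (hele j)]
  have hcard : Fintype.card (Fin (p - 1)) = Fintype.card {j // j ∈ R} := by
    rw [Fintype.card_fin, Fintype.card_coe, hR]
  by_cases hc : Function.Injective c
  · rw [if_pos hc]
    have hb : Function.Bijective c := (Fintype.bijective_iff_injective_and_card c).2 ⟨hc, hcard⟩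
    have h2 : ∀ j, e j = 1 := by
      intro j
      obtain ⟨s, hs⟩ := hb.2 j
      rw [he, Finset.card_eq_one]
      refine ⟨s, ?_⟩
      ext t
      rw [Finset.mem_filter, Finset.mem_singleton]
      constructor
      · rintro ⟨_, ht⟩
        exact hc (ht.trans hs.symm)
      · rintro rfl
        exact ⟨Finset.mem_univ _, hs⟩
    rw [Finset.prod_congr rfl fun j _ => if_pos (h2 j), Finset.prod_const, Finset.card_univ,
      ← hcard, Fintype.card_fin]
    have hodd : Odd p := (Fact.out : p.Prime).odd_of_ne_two hp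
    have hev : Even (p - 1) := by
      obtain ⟨m, hm⟩ := hodd
      exact ⟨m, by omega⟩
    exact hev.neg_one_pow
  · rw [if_neg hc]
    have h3 : ∃ s t, c s = c t ∧ s ≠ t := by
      by_contra h
      push Not at h
      exact hc fun s t hst => h s t hst
    obtain ⟨s, t, hst, hne⟩ := h3
    refine Finset.prod_eq_zero (Finset.mem_univ (c s)) (if_neg ?_)
    intro h4
    rw [he, Finset.card_eq_one] at h4
    obtain ⟨u, hu⟩ := h4
    have hs' : s ∈ (Finset.univ.filter fun s' => c s' = c s) :=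
      Finset.mem_filter.2 ⟨Finset.mem_univ _, rfl⟩
    have ht' : t ∈ (Finset.univ.filter fun s' => c s' = c s) :=
      Finset.mem_filter.2 ⟨Finset.mem_univ _, hst.symm⟩
    rw [hu, Finset.mem_singleton] at hs' ht'
    exact hne (hs'.trans ht'.symm)

/-- [ph2, size 2] the same for a power of a linear form.  Proof: `(∑ j, z j * g j)^(p-1) = ∑ c : Fin (p-1) → R, ∏ s, z (c s) * g (c s)`
(`Finset.prod_univ_sum` with a constant factor, or `Finset.sum_pow'`-like), `row_sum`, and there are `(p-1)!` injective `c`, for each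
`∏ s, g (c s) = ∏ j, g j`; Wilson: `((p-1)! : ZMod p) = -1` (`ZMod.wilsons_lemma`). -/
theorem row_lin (p : ℕ) [Fact p.Prime] (hp : p ≠ 2) (R : Finset ν) (hR : R.card = p - 1)
    (g : ν → ZMod p) :
    ∑ z : {j // j ∈ R} → ZMod p, (∏ j, z j ^ (p - 2)) * (∑ j, z j * g j.1) ^ (p - 1) =
      - ∏ j ∈ R, g j := by

  classical
  have h1 : ∀ z : {j // j ∈ R} → ZMod p,
      (∏ j, z j ^ (p - 2)) * (∑ j, z j * g j.1) ^ (p - 1) =
      ∑ c : Fin (p - 1) → {j // j ∈ R}, (∏ s, g (c s).1) *
        ((∏ j, z j ^ (p - 2)) * ∏ s, z (c s)) := by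
    intro z
    rw [Fintype.sum_pow, Finset.mul_sum]
    refine Finset.sum_congr rfl fun c _ => ?_
    rw [Finset.prod_mul_distrib]
    ring
  rw [Finset.sum_congr rfl fun z _ => h1 z, Finset.sum_comm]
  have hcard : Fintype.card (Fin (p - 1)) = Fintype.card {j // j ∈ R} := by
    rw [Fintype.card_fin, Fintype.card_coe, hR]
  have h2 : ∀ c : Fin (p - 1) → {j // j ∈ R}, ∑ z : {j // j ∈ R} → ZMod p,
      (∏ s, g (c s).1) * ((∏ j, z j ^ (p - 2)) * ∏ s, z (c s)) =
      if Function.Injective c then ∏ j ∈ R, g j else 0 := by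
    intro c
    rw [← Finset.mul_sum]
    have h3 := row_sum p hp R hR c
    rw [h3]
    by_cases hc : Function.Injective c
    · rw [if_pos hc, if_pos hc, mul_one]
      have hb : Function.Bijective c := (Fintype.bijective_iff_injective_and_card c).2 ⟨hc, hcard⟩
      rw [← Finset.prod_coe_sort R g]
      exact Function.Bijective.prod_comp hb (fun j : {j // j ∈ R} => g j.1)
    · rw [if_neg hc, if_neg hc, mul_zero]
  rw [Finset.sum_congr rfl fun c _ => h2 c, ← Finset.sum_filter, Finset.sum_const, nsmul_eq_mul]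
  have h4 : (Finset.univ.filter fun c : Fin (p - 1) → {j // j ∈ R} => Function.Injective c).card =
      (p - 1).factorial := by
    rw [← Fintype.card_subtype, Fintype.card_congr (Equiv.subtypeInjectiveEquivEmbedding _ _),
      Fintype.card_embedding_eq, ← hcard, Fintype.card_fin, Nat.descFactorial_self]
  rw [h4, ZMod.wilsons_lemma]
  ring

/-- [ph3, size 3] first evaluation: `Z_i = ∑_{j ∈ R i} z i j Y_j` (row `i` of `Z Y`); `det (Z Y) = ∑_{v : (i : Fin k) → R i} ∏ i, z i (v i) * det (Y (v i) l)`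
(multilinearity in the rows: `Matrix.detRowAlternating`, `MultilinearMap.map_sum`); the `(p-1)`-st power is the sum over
`v : Fin (p-1) → (i : Fin k) → R i`; then `∏ i` of `row_sum` with `c s = v s i`. -/
theorem phi_first (p : ℕ) [Fact p.Prime] (hp : p ≠ 2) (k : ℕ) (Y : Matrix ν (Fin k) (ZMod p))
    (R : Fin k → Finset ν) (hR : ∀ i, (R i).card = p - 1) :
    ∑ z : (i : Fin k) → {j // j ∈ R i} → ZMod p, (∏ i, ∏ j, z i j ^ (p - 2)) *
      Matrix.det (Matrix.of fun (i l : Fin k) => ∑ j, z i j * Y j.1 l) ^ (p - 1) = PhiR p k Y R := by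

  classical
  have hdet : ∀ z : (i : Fin k) → {j // j ∈ R i} → ZMod p,
      Matrix.det (Matrix.of fun (i l : Fin k) => ∑ j, z i j * Y j.1 l) =
      ∑ v : (i : Fin k) → {j // j ∈ R i}, (∏ i, z i (v i)) *
        Matrix.det (Matrix.of fun (i l : Fin k) => Y (v i).1 l) := by
    intro z
    have e1 : (Matrix.of fun (i l : Fin k) => ∑ j, z i j * Y j.1 l) =
        fun i => ∑ j : {j // j ∈ R i}, z i j • (fun l => Y j.1 l) := by
      funext i l
      rw [Matrix.of_apply, Finset.sum_apply]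
      rfl
    have e2 := MultilinearMap.map_sum
      (Matrix.detRowAlternating (n := Fin k) (R := ZMod p)).toMultilinearMap
      (fun i (j : {j // j ∈ R i}) => z i j • (fun l => Y j.1 l))
    have e3 : Matrix.det (Matrix.of fun (i l : Fin k) => ∑ j, z i j * Y j.1 l) =
        (Matrix.detRowAlternating (n := Fin k) (R := ZMod p)).toMultilinearMap
          (fun i => ∑ j : {j // j ∈ R i}, z i j • (fun l => Y j.1 l)) := by
      rw [e1]
      rfl
    rw [e3, e2]
    refine Finset.sum_congr rfl fun v _ => ?_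
    rw [MultilinearMap.map_smul_univ, smul_eq_mul]
    rfl
  have h1 : ∀ z : (i : Fin k) → {j // j ∈ R i} → ZMod p,
      (∏ i, ∏ j, z i j ^ (p - 2)) *
        Matrix.det (Matrix.of fun (i l : Fin k) => ∑ j, z i j * Y j.1 l) ^ (p - 1) =
      ∑ V : Fin (p - 1) → (i : Fin k) → {j // j ∈ R i},
        (∏ s, Matrix.det (Matrix.of fun (i l : Fin k) => Y (V s i).1 l)) *
        ∏ i, ((∏ j, z i j ^ (p - 2)) * ∏ s, z i (V s i)) := by
    intro z
    rw [hdet, Fintype.sum_pow, Finset.mul_sum]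
    refine Finset.sum_congr rfl fun V _ => ?_
    rw [Finset.prod_mul_distrib, Finset.prod_mul_distrib, Finset.prod_comm (γ := Fin k)]
    ring
  rw [Finset.sum_congr rfl fun z _ => h1 z, Finset.sum_comm]
  have h2 : ∀ V : Fin (p - 1) → (i : Fin k) → {j // j ∈ R i},
      ∑ z : (i : Fin k) → {j // j ∈ R i} → ZMod p,
        (∏ s, Matrix.det (Matrix.of fun (i l : Fin k) => Y (V s i).1 l)) *
        ∏ i, ((∏ j, z i j ^ (p - 2)) * ∏ s, z i (V s i)) =
      if ∀ i, Function.Injective (fun s => (V s i).1) ∧ ∀ s, (V s i).1 ∈ R i then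
        ∏ s, Matrix.det (Matrix.of fun (i l : Fin k) => Y (V s i).1 l) else 0 := by
    intro V
    rw [← Finset.mul_sum, ← ph_fac (fun i (x : {j // j ∈ R i} → ZMod p) =>
      (∏ j, x j ^ (p - 2)) * ∏ s, x (V s i)),
      Finset.prod_congr rfl fun i _ => row_sum p hp (R i) (hR i) (fun s => V s i)]
    by_cases hV : ∀ i, Function.Injective (fun s => (V s i).1) ∧ ∀ s, (V s i).1 ∈ R i
    · have h6 : (∏ i, if Function.Injective (fun s => V s i) then (1 : ZMod p) else 0) = 1 :=
        Finset.prod_eq_one fun i _ =>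
          if_pos fun s t hst => (hV i).1 (congrArg Subtype.val hst)
      rw [if_pos hV, h6, mul_one]
    · rw [if_neg hV]
      have h3 : ∃ i, ¬ Function.Injective (fun s => V s i) := by
        by_contra h
        push Not at h
        exact hV fun i => ⟨fun s t hst => h i (Subtype.ext hst), fun s => (V s i).2⟩
      obtain ⟨i, hi⟩ := h3
      rw [Finset.prod_eq_zero (Finset.mem_univ i) (if_neg hi), mul_zero]
  rw [Finset.sum_congr rfl fun V _ => h2 V]
  unfold PhiR
  refine Fintype.sum_of_injective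
    (fun (V : Fin (p - 1) → (i : Fin k) → {j // j ∈ R i}) (s : Fin (p - 1)) (i : Fin k) => (V s i).1)
    ?_ _ _ ?_ ?_
  · intro V W h
    funext s i
    exact Subtype.ext (congrFun (congrFun h s) i)
  · intro v hv
    refine if_neg fun h => hv ?_
    exact ⟨fun s i => ⟨v s i, (h i).2 s⟩, rfl⟩
  · intro V
    rfl

/-- [ph4, size 2] second evaluation, by `det_pow` and `row_lin`: `det W ^ (p-1) = (-1)^k * ∑ t, ∏ i, (W t)_i ^ (p-1)`,
`(W t)_i = ∑_j z i j * (∑ l, Y j l * t l)`; the sum over `z` factorises over `i` (`Finset.prod_univ_sum`), each factor is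
`- ∏_{j ∈ R i} ∑ l, Y j l * t l`; `(-1)^k * (-1)^k = 1`. -/
theorem phi_eq (p : ℕ) [Fact p.Prime] (hp : p ≠ 2) (k : ℕ) (Y : Matrix ν (Fin k) (ZMod p))
    (R : Fin k → Finset ν) (hR : ∀ i, (R i).card = p - 1) :
    PhiR p k Y R = ∑ t : Fin k → ZMod p, ∏ i, ∏ j ∈ R i, ∑ l, Y j l * t l := by

  classical
  have hm : ((-1 : ZMod p) ^ k) * ((-1) ^ k) = 1 := by
    rw [← mul_pow, neg_one_mul, neg_neg, one_pow]
  rw [← phi_first p hp k Y R hR]
  have h1 : ∀ z : (i : Fin k) → {j // j ∈ R i} → ZMod p,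
      (∏ i, ∏ j, z i j ^ (p - 2)) *
        Matrix.det (Matrix.of fun (i l : Fin k) => ∑ j, z i j * Y j.1 l) ^ (p - 1) =
      ∑ t : Fin k → ZMod p, (-1) ^ k * ∏ i, ((∏ j, z i j ^ (p - 2)) *
        (∑ j, z i j * ∑ l, Y j.1 l * t l) ^ (p - 1)) := by
    intro z
    have e1 := det_pow p k (Matrix.of fun (i l : Fin k) => ∑ j, z i j * Y j.1 l)
    have e2 : Matrix.det (Matrix.of fun (i l : Fin k) => ∑ j, z i j * Y j.1 l) ^ (p - 1) =
        (-1) ^ k * ∑ t : Fin k → ZMod p,
          ∏ i, ((Matrix.of fun (i l : Fin k) => ∑ j, z i j * Y j.1 l).mulVec t i) ^ (p - 1) := by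
      rw [e1, ← mul_assoc, hm, one_mul]
    rw [e2, ← mul_assoc, Finset.mul_sum]
    refine Finset.sum_congr rfl fun t _ => ?_
    have e3 : ∀ i, (Matrix.of fun (i l : Fin k) => ∑ j, z i j * Y j.1 l).mulVec t i =
        ∑ j, z i j * ∑ l, Y j.1 l * t l := by
      intro i
      unfold Matrix.mulVec dotProduct
      simp only [Matrix.of_apply, Finset.sum_mul, Finset.mul_sum]
      rw [Finset.sum_comm]
      refine Finset.sum_congr rfl fun j _ => Finset.sum_congr rfl fun l _ => ?_
      ring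
    have e4 : ∏ i, ((Matrix.of fun (i l : Fin k) => ∑ j, z i j * Y j.1 l).mulVec t i) ^ (p - 1) =
        ∏ i, (∑ j, z i j * ∑ l, Y j.1 l * t l) ^ (p - 1) :=
      Finset.prod_congr rfl fun i _ => by rw [e3 i]
    rw [e4, Finset.prod_mul_distrib]
    ring
  rw [Finset.sum_congr rfl fun z _ => h1 z, Finset.sum_comm]
  refine Finset.sum_congr rfl fun t _ => ?_
  rw [← Finset.mul_sum, ← ph_fac (fun i (x : {j // j ∈ R i} → ZMod p) =>
      (∏ j, x j ^ (p - 2)) * (∑ j, x j * ∑ l, Y j.1 l * t l) ^ (p - 1)),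
    Finset.prod_congr rfl fun i _ => row_lin p hp (R i) (hR i) (fun j => ∑ l, Y j l * t l)]
  have h5 : ∏ i : Fin k, -(∏ j ∈ R i, ∑ l, Y j l * t l) =
      (-1) ^ k * ∏ i, ∏ j ∈ R i, ∑ l, Y j l * t l := by
    rw [Finset.prod_neg, Finset.card_univ, Fintype.card_fin]
  rw [h5, ← mul_assoc, hm, one_mul]

end Pool.Agent.RB
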