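import Pool.Agent.RB.Alt

set_option autoImplicit false

namespace Pool.Agent.RB

open Equiv

variable {ν : Type} [Fintype ν] [DecidableEq ν]

/-- [sg1, size 3] THE THREE SIGNS.  Proof: `E : Fin k × ν ≃ Fin k × ν`, `E (a, j) = (b, s)` with `s = h j a`, `j = f s b` (`b` exists by
`Inc.iff` and is unique by `Inc.finj`; `E` is injective by `Inc.hinj`, a finite set).  `κ = sign E`.  Given `c`, `δ`: for every `i` the map
`j ↦ h j (c j i)` is bijective with inverse `s ↦ f s (δ s i)`; let `σ i` be this permutation (`eps_of_bij`).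
On `Fin k × ν`: `α (i, j) = (i, σ i j)` has sign `∏ sign (σ i)` (`Equiv.Perm.sign_prodCongrRight`-type lemma:
`Equiv.prodCongrRight`, `Equiv.Perm.sign_prodCongrRight`), `β (i, j) = (c j i, j)` has sign `∏ sign (c j)`
(`Equiv.Perm.sign_prodCongrLeft`), `γ (i, s) = (δ s i, s)` has sign `∏ sign (δ s)`.  `γ (α (i, j)) = (δ s i, s)`, `s = σ i j`, and
`E (β (i, j)) = (b, h j (c j i)) = (b, s)` with `f s b = j = f s (δ s i)`, so `b = δ s i`: `γ ∘ α = E ∘ β`.  Signs are `±1`. -/
theorem rel_sign {k : ℕ} {f h : ν → Fin k → ν} (hI : Inc k f h) :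
    ∃ κ : ℤ, (κ = 1 ∨ κ = -1) ∧ ∀ c δ : ν → Perm (Fin k),
      (∀ i j s, h j (c j i) = s ↔ f s (δ s i) = j) →
        (∏ j, (Perm.sign (c j) : ℤ)) * ∏ i : Fin k, eps (fun j => h j (c j i)) =
          κ * ∏ s, (Perm.sign (δ s) : ℤ) := by
  classical
  have hb : ∀ x : Fin k × ν, ∃ b : Fin k, f (h x.2 x.1) b = x.2 := by
    intro x
    have h1 : h x.2 x.1 ∈ Set.range (h x.2) := ⟨x.1, rfl⟩
    exact (hI.iff (h x.2 x.1) x.2).mpr h1
  choose b hb using hb
  let E : Fin k × ν → Fin k × ν := fun x => (b x, h x.2 x.1)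
  have hE : Function.Injective E := by
    rintro ⟨a, j⟩ ⟨a', j'⟩ he
    have h1 : b (a, j) = b (a', j') := congrArg Prod.fst he
    have h2 : h j a = h j' a' := congrArg Prod.snd he
    have h3 : f (h j a) (b (a, j)) = j := hb (a, j)
    have h4 : f (h j' a') (b (a', j')) = j' := hb (a', j')
    have h5 : j = j' := by rw [← h3, ← h4, h1, h2]
    subst h5
    have h6 : a = a' := hI.hinj j h2
    rw [h6]
  let E' : Perm (Fin k × ν) := Equiv.ofBijective E (Finite.injective_iff_bijective.mp hE)
  refine ⟨(Perm.sign E' : ℤ), ?_, ?_⟩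
  · rcases Int.units_eq_one_or (Perm.sign E') with h1 | h1
    · left; rw [h1]; rfl
    · right; rw [h1]; rfl
  intro c δ hrel
  have hbij : ∀ i, Function.Bijective (fun j => h j (c j i)) := by
    intro i
    refine Finite.injective_iff_bijective.mp ?_
    intro j j' hj
    have h1 : f (h j (c j i)) (δ (h j (c j i)) i) = j := (hrel i j _).mp rfl
    have h2 : f (h j' (c j' i)) (δ (h j' (c j' i)) i) = j' := (hrel i j' _).mp rfl
    have h3 : h j (c j i) = h j' (c j' i) := hj
    rw [← h1, ← h2, h3]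
  let σ : Fin k → Perm ν := fun i => Equiv.ofBijective _ (hbij i)
  have hσ : ∀ i, eps (fun j => h j (c j i)) = (Perm.sign (σ i) : ℤ) := fun i => eps_of_bij (hbij i)
  have key : (prodCongrLeft δ : Perm (Fin k × ν)) * (prodCongrRight σ : Perm (Fin k × ν)) =
      E' * (prodCongrLeft c : Perm (Fin k × ν)) := by
    ext1 ⟨i, j⟩
    change (δ (h j (c j i)) i, h j (c j i)) = (b (c j i, j), h j (c j i))
    have h1 : f (h j (c j i)) (δ (h j (c j i)) i) = j := (hrel i j _).mp rfl
    have h2 : f (h j (c j i)) (b (c j i, j)) = j := hb (c j i, j)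
    have h3 := hI.finj (h j (c j i)) (h1.trans h2.symm)
    rw [h3]
  have hs := congrArg Perm.sign key
  rw [map_mul, map_mul, Perm.sign_prodCongrLeft, Perm.sign_prodCongrLeft, Perm.sign_prodCongrRight] at hs
  have hu : (∏ j, Perm.sign (c j)) * ∏ i, Perm.sign (σ i) = Perm.sign E' * ∏ s, Perm.sign (δ s) := by
    have h1 : ∀ u : ℤˣ, u * u = 1 := Int.units_mul_self
    have h2 : (∏ j, Perm.sign (c j)) = Perm.sign E' * ((∏ s, Perm.sign (δ s)) * ∏ i, Perm.sign (σ i)) := by
      rw [hs, ← mul_assoc, h1, one_mul]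
    rw [h2, mul_assoc, mul_assoc, h1, mul_one]
  rw [Finset.prod_congr rfl fun i _ => hσ i]
  have h9 := congrArg (fun u : ℤˣ => (u : ℤ)) hu
  simpa [Units.coe_prod] using h9

private theorem sg2_ex {k : ℕ} {f h : ν → Fin k → ν} (hI : Inc k f h) (c : ν → Perm (Fin k))
    (hc : ∀ i, Function.Bijective (fun j => h j (c j i))) :
    ∃ δ : ν → Perm (Fin k), (∀ i j s, h j (c j i) = s ↔ f s (δ s i) = j) ∧
      ∀ i, Function.Bijective (fun s => f s (δ s i)) := by
  have h1 : ∀ (i : Fin k) (s : ν), ∃ j, h j (c j i) = s := fun i s => (hc i).2 s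
  choose J hJ using h1
  have h2 : ∀ (s : ν) (i : Fin k), ∃ l, f s l = J i s := by
    intro s i
    have h3 : s ∈ Set.range (h (J i s)) := ⟨_, hJ i s⟩
    exact (hI.iff s (J i s)).mpr h3
  choose d hd using h2
  have hinj : ∀ s, Function.Injective (d s) := by
    intro s i i' he
    have h3 : J i s = J i' s := by rw [← hd s i, ← hd s i', he]
    have h4 := hJ i s
    have h5 := hJ i' s
    rw [← h3] at h5
    have h6 := hI.hinj _ (h4.trans h5.symm)
    exact (c (J i s)).injective h6
  refine ⟨fun s => Equiv.ofBijective (d s) (Finite.injective_iff_bijective.mp (hinj s)), ?_, ?_⟩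
  · intro i j s
    change h j (c j i) = s ↔ f s (d s i) = j
    rw [hd s i]
    constructor
    · intro h3
      exact (hc i).1 (show h (J i s) (c (J i s) i) = h j (c j i) by rw [hJ i s, h3])
    · intro h3
      rw [← h3]
      exact hJ i s
  · intro i
    refine Finite.injective_iff_bijective.mp ?_
    intro s s' he
    have h3 : f s (d s i) = f s' (d s' i) := he
    rw [hd s i, hd s' i] at h3
    rw [← hJ i s, h3, hJ i s']

private theorem sg2_symm {k : ℕ} {f h : ν → Fin k → ν} (hI : Inc k f h) : Inc k h f :=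
  ⟨hI.hinj, hI.finj, fun s j => (hI.iff j s).symm⟩

/-- [sg2, size 3] `W(h) = ± C(f)`.  Proof: in `Wh` only the `c` with all `j ↦ h j (c j i)` bijective count (`eps_of_not`), in `Cf` only the
`δ` with all `s ↦ f s (δ s i)` bijective.  These two sets are in bijection by the relation of `rel_sign`: given `c`, `j ∈ range (f s)` for
`s = h j (c j i)` (`Inc.iff`), so there is `δ s i` with `f s (δ s i) = j`, where `j` is the unique column with
`h j (c j i) = s`; `i ↦ δ s i` is injective: `δ s i = δ s i'` gives the same `j`, so `h j (c j i) = h j (c j i')` and `i = i'` (`hinj`).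
Symmetrically from `δ` to `c`.  (`Finset.sum_bij'` or `Finset.sum_nbij'` on the filtered sums.) -/
theorem wh_eq {k : ℕ} {f h : ν → Fin k → ν} (hI : Inc k f h) : Wh k h = Cf k f ∨ Wh k h = - Cf k f := by
  classical
  obtain ⟨κ, hκ, hrel⟩ := rel_sign hI
  suffices hs : Wh k h = κ * Cf k f by
    rcases hκ with h1 | h1
    · left; rw [hs, h1, one_mul]
    · right; rw [hs, h1]; ring
  have hW : Wh k h = ∑ c ∈ Finset.univ.filter (fun c : ν → Perm (Fin k) =>
      ∀ i, Function.Bijective (fun j => h j (c j i))),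
      (∏ j, (Perm.sign (c j) : ℤ)) * ∏ i : Fin k, eps (fun j => h j (c j i)) := by
    unfold Wh
    rw [Finset.sum_filter]
    refine Finset.sum_congr rfl fun c _ => ?_
    by_cases h1 : ∀ i, Function.Bijective (fun j => h j (c j i))
    · rw [if_pos h1]
    · rw [if_neg h1]
      push Not at h1
      obtain ⟨i, hi⟩ := h1
      rw [Finset.prod_eq_zero (Finset.mem_univ i) (eps_of_not hi), mul_zero]
  have hC : Cf k f = ∑ δ ∈ Finset.univ.filter (fun δ : ν → Perm (Fin k) =>
      ∀ i, Function.Bijective (fun s => f s (δ s i))), ∏ s, (Perm.sign (δ s) : ℤ) := by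
    unfold Cf
    rw [Finset.sum_filter]
    refine Finset.sum_congr rfl fun δ _ => ?_
    by_cases h1 : ∀ i, Function.Bijective (fun s => f s (δ s i))
    · rw [if_pos h1, Finset.prod_congr rfl fun i _ => if_pos (h1 i), Finset.prod_const_one, mul_one]
    · rw [if_neg h1]
      push Not at h1
      obtain ⟨i, hi⟩ := h1
      rw [Finset.prod_eq_zero (Finset.mem_univ i) (if_neg hi), mul_zero]
  rw [hW, hC, Finset.mul_sum]
  have hex : ∀ c : ν → Perm (Fin k), ∃ δ : ν → Perm (Fin k),
      (∀ i, Function.Bijective (fun j => h j (c j i))) →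
      (∀ i j s, h j (c j i) = s ↔ f s (δ s i) = j) ∧ ∀ i, Function.Bijective (fun s => f s (δ s i)) := by
    intro c
    by_cases h1 : ∀ i, Function.Bijective (fun j => h j (c j i))
    · obtain ⟨δ, hδ⟩ := sg2_ex hI c h1
      exact ⟨δ, fun _ => hδ⟩
    · exact ⟨fun _ => 1, fun h2 => absurd h2 h1⟩
  choose D hD using hex
  refine Finset.sum_bij (fun c _ => D c) ?_ ?_ ?_ ?_
  · intro c hc
    rw [Finset.mem_filter] at hc ⊢
    exact ⟨Finset.mem_univ _, (hD c hc.2).2⟩
  · intro c hc c' hc' he
    rw [Finset.mem_filter] at hc hc'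
    have h1 := (hD c hc.2).1
    have h2 := (hD c' hc'.2).1
    have h3 : D c = D c' := he
    rw [← h3] at h2
    funext j
    ext1 i
    have h4 := (h1 i j (h j (c j i))).mp rfl
    have h5 := (h2 i j (h j (c j i))).mpr h4
    exact (hI.hinj j h5).symm
  · intro δ hδ
    rw [Finset.mem_filter] at hδ
    obtain ⟨c, hc1, hc2⟩ := sg2_ex (sg2_symm hI) δ hδ.2
    refine ⟨c, ?_, ?_⟩
    · rw [Finset.mem_filter]
      exact ⟨Finset.mem_univ _, hc2⟩
    · have h1 := (hD c hc2).1
      funext s
      ext1 i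
      have h2 := (hc1 i s (f s (δ s i))).mp rfl
      have h3 := (h1 i (f s (δ s i)) s).mp h2
      exact hI.finj s h3
  · intro c hc
    rw [Finset.mem_filter] at hc
    exact hrel c (D c) (hD c hc.2).1

private theorem inc_inj {k : ℕ} {f : ν → Fin k → ν} (hf : Cf k f ≠ 0) (s : ν) : Function.Injective (f s) := by
  intro l l' hll
  by_contra hne
  apply hf
  have key : Cf k f = - Cf k f := by
    unfold Cf
    rw [← Finset.sum_neg_distrib]
    refine Fintype.sum_equiv (Equiv.mulLeft (Pi.mulSingle s (swap l l') : ν → Perm (Fin k))) _ _ ?_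
    intro δ
    rw [← neg_mul]
    congr 1
    · have h1 : ∀ s', (Perm.sign (((Equiv.mulLeft (Pi.mulSingle s (swap l l') : ν → Perm (Fin k))) δ) s') : ℤ) =
          (Perm.sign ((Pi.mulSingle s (swap l l') : ν → Perm (Fin k)) s') : ℤ) * (Perm.sign (δ s') : ℤ) := by
        intro s'
        simp
      have h4 : ∏ s', (Perm.sign (((Equiv.mulLeft (Pi.mulSingle s (swap l l') : ν → Perm (Fin k))) δ) s') : ℤ) =
          - ∏ s', (Perm.sign (δ s') : ℤ) := by
        rw [Finset.prod_congr rfl (fun s' _ => h1 s'), Finset.prod_mul_distrib, Finset.prod_eq_single s]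
        · simp [Perm.sign_swap hne]
        · intro b _ hb
          simp [Pi.mulSingle_eq_of_ne hb]
        · intro h
          exact absurd (Finset.mem_univ s) h
      exact (neg_eq_iff_eq_neg.mpr h4).symm
    · refine Finset.prod_congr rfl fun i _ => ?_
      have h2 : (fun s' => f s' ((Equiv.mulLeft (Pi.mulSingle s (swap l l') : ν → Perm (Fin k)) δ) s' i)) = fun s' => f s' (δ s' i) := by
        funext s'
        by_cases hs : s' = s
        · subst hs
          simp only [Equiv.coe_mulLeft, Pi.mul_apply, Pi.mulSingle_eq_same, Perm.coe_mul, Function.comp_apply]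
          by_cases h3 : δ s' i = l
          · rw [h3, swap_apply_left, hll]
          · by_cases h4 : δ s' i = l'
            · rw [h4, swap_apply_right, hll]
            · rw [swap_apply_of_ne_of_ne h3 h4]
        · simp [Pi.mulSingle_eq_of_ne hs]
      rw [h2]
  omega

/-- [inc, size 3] a nonzero count forces a `k`-regular incidence.  Proof: `f s` is injective: if `f s l = f s l'`, `l ≠ l'`, then
`δ ↦ update δ s (swap l l' * δ s)` is a sign reversing involution on the terms (`f s (swap l l' x) = f s x`), so `Cf k f = 0`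
(`Finset.sum_involution`).  Some term is nonzero: there is `δ` such that for every `i` the map `s ↦ f s (δ s i)` is bijective.  For a
column `j` let `t i` be the symbol with `f (t i) (δ (t i) i) = j`; `t` is injective (if `t i = t i' = s`: `δ s i = δ s i'`, `i = i'`), so at
least `k` symbols `s` have `j ∈ range (f s)`; double counting (`∑_s card (range (f s)) = k * card ν`): exactly `k`, so
they are the `t i`, and `h j := t`. -/
theorem exists_inc {k : ℕ} {f : ν → Fin k → ν} (hf : Cf k f ≠ 0) : ∃ h : ν → Fin k → ν, Inc k f h := by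
  obtain ⟨δ, -, hδ⟩ := Finset.exists_ne_zero_of_sum_ne_zero (show (∑ δ : ν → Perm (Fin k), (∏ s, (Perm.sign (δ s) : ℤ)) *
    ∏ i : Fin k, (if Function.Bijective (fun s => f s (δ s i)) then (1 : ℤ) else 0)) ≠ 0 from hf)
  have hb : ∀ i, Function.Bijective (fun s => f s (δ s i)) := by
    intro i
    by_contra h
    apply hδ
    rw [Finset.prod_eq_zero (Finset.mem_univ i) (if_neg h), mul_zero]
  choose t ht using fun j i => (hb i).2 j
  refine ⟨t, inc_inj hf, ?_, ?_⟩
  · intro j i i' h
    have h1 := ht j i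
    have h2 := ht j i'
    simp only at h1 h2
    rw [← h] at h2
    exact (δ (t j i)).injective (inc_inj hf _ (h1.trans h2.symm))
  · intro s j
    constructor
    · rintro ⟨b, hb'⟩
      refine ⟨(δ s).symm b, ?_⟩
      apply (hb ((δ s).symm b)).1
      rw [ht]
      simp [hb']
    · rintro ⟨i, hi⟩
      rw [← hi]
      exact ⟨_, ht j i⟩

/-- [cor, size 2] CORE.  Proof: `Cf k f ≠ 0`; `h` from `exists_inc`; `Wh k h = ± Cf k f` is nonzero in `F`; by `alt_sum` the sum over
`σ` is nonzero, so some term is (`Finset.exists_ne_zero_of_sum_ne_zero`), so all its determinants are nonzero.  Count: `b ∈ range (h j)` iff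
`j ∈ range (f b)`, and `f b` is injective. -/
theorem core {F : Type} [Field F] {k : ℕ} {f : ν → Fin k → ν} (hf : ((Cf k f : ℤ) : F) ≠ 0)
    (A : Fin k → Matrix ν ν F) (hA : ∀ i, (A i).det ≠ 0) :
    ∃ (σ : Fin k → Perm ν) (h : ν → Fin k → ν), (∀ j, Function.Injective (h j)) ∧
      (∀ b, (Finset.univ.filter fun j => b ∈ Finset.univ.image (h j)).card = k) ∧
      ∀ j, Matrix.det (Matrix.of fun (i l : Fin k) => A i (h j l) (σ i j)) ≠ 0 := by
  have hC : Cf k f ≠ 0 := fun h0 => hf (by rw [h0]; simp)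
  obtain ⟨h, hI⟩ := exists_inc hC
  have hW : ((Wh k h : ℤ) : F) ≠ 0 := by
    rcases wh_eq hI with h1 | h1
    · rw [h1]; exact hf
    · rw [h1, Int.cast_neg]; exact neg_ne_zero.mpr hf
  have hS := alt_sum k A h
  have hne : (∏ i, (A i).det) * ((Wh k h : ℤ) : F) ≠ 0 :=
    mul_ne_zero (Finset.prod_ne_zero_iff.mpr fun i _ => hA i) hW
  rw [← hS] at hne
  obtain ⟨σ, -, hσ⟩ := Finset.exists_ne_zero_of_sum_ne_zero hne
  refine ⟨σ, h, hI.hinj, ?_, ?_⟩
  · intro b
    have e : (Finset.univ.filter fun j => b ∈ Finset.univ.image (h j)) = Finset.univ.image (f b) := by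
      ext j
      simp only [Finset.mem_filter, Finset.mem_univ, true_and, Finset.mem_image]
      constructor
      · rintro ⟨l, hl⟩
        obtain ⟨m, hm⟩ := (hI.iff b j).mpr ⟨l, hl⟩
        exact ⟨m, hm⟩
      · rintro ⟨l, hl⟩
        obtain ⟨m, hm⟩ := (hI.iff b j).mp ⟨l, hl⟩
        exact ⟨m, hm⟩
    rw [e, Finset.card_image_of_injective _ (hI.finj b), Finset.card_univ, Fintype.card_fin]
  · intro j h0
    apply hσ
    rw [Finset.prod_eq_zero (Finset.mem_univ j) h0, mul_zero]

end Pool.Agent.RB
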